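import Pool.Agent.BlowHirz.Defs

set_option autoImplicit false

namespace BlowHirz

open MvPolynomial

noncomputable section

/-! ## local rings -/

theorem aeval_mem_loc (u v : K) (p : MvPolynomial (Fin 2) ℂ) : aeval ![u, v] p ∈ loc u v :=
  ⟨p, 1, by simp, by simp, by simp⟩

theorem left_mem_loc (u v : K) : u ∈ loc u v := by
  have := aeval_mem_loc u v (X 0)
  simpa using this

theorem right_mem_loc (u v : K) : v ∈ loc u v := by
  have := aeval_mem_loc u v (X 1)
  simpa using this

theorem cst_mem (R : Subalgebra ℂ K) (a : ℂ) : cst a ∈ R := R.algebraMap_mem a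

/-- units of `loc u v` -/
theorem inv_mem_loc {u v : K} (p : MvPolynomial (Fin 2) ℂ) (h0 : constantCoeff p ≠ 0) :
    (aeval ![u, v] p)⁻¹ ∈ loc u v := by
  by_cases h : aeval ![u, v] p = 0
  · rw [h, inv_zero]; exact (loc u v).zero_mem
  · exact ⟨1, p, h0, h, by simp⟩

theorem inv_left_add_cst_mem {u v : K} {a : ℂ} (ha : a ≠ 0) : (u + cst a)⁻¹ ∈ loc u v := by
  have := inv_mem_loc (u := u) (v := v) (X 0 + C a) (by simpa using ha)
  simpa using this

theorem inv_right_add_cst_mem {u v : K} {a : ℂ} (ha : a ≠ 0) : (v + cst a)⁻¹ ∈ loc u v := by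
  have := inv_mem_loc (u := u) (v := v) (X 1 + C a) (by simpa using ha)
  simpa using this

/-- criterion for regular vector fields -/
theorem tangent_loc {u v : K} {D : Derivation ℂ K K} (hu : D u ∈ loc u v) (hv : D v ∈ loc u v) :
    D ∈ tangent (loc u v) := by
  have key : ∀ p : MvPolynomial (Fin 2) ℂ, D (aeval ![u, v] p) ∈ loc u v := by
    intro p
    induction p using MvPolynomial.induction_on with
    | C a => simp
    | add p q hp hq => rw [map_add, map_add]; exact (loc u v).add_mem hp hq
    | mul_X p i hp =>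
      rw [map_mul, Derivation.leibniz, aeval_X]
      refine (loc u v).add_mem ?_ ?_
      · refine (loc u v).mul_mem (aeval_mem_loc u v p) ?_
        fin_cases i
        · exact hu
        · exact hv
      · refine (loc u v).mul_mem ?_ hp
        fin_cases i
        · exact left_mem_loc u v
        · exact right_mem_loc u v
  rintro f ⟨p, q, h0, h, rfl⟩
  rw [Derivation.leibniz_div]
  have hq : (aeval ![u, v] q)⁻¹ ∈ loc u v := inv_mem_loc q h0
  refine (loc u v).mul_mem ?_ ?_
  · exact (loc u v).pow_mem hq 2
  · refine (loc u v).sub_mem ?_ ?_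
    · exact (loc u v).mul_mem (aeval_mem_loc u v q) (key p)
    · exact (loc u v).mul_mem (aeval_mem_loc u v p) (key q)

/-! ## derivations of `K` -/

/-- existence of derivations with prescribed values on the coordinates -/
theorem exists_der (w : Fin 2 → K) : ∃ D : Derivation ℂ K K, ∀ p : MvPolynomial (Fin 2) ℂ,
    D (algebraMap _ K p) = mkDerivation ℂ w p := by
  let A := MvPolynomial (Fin 2) ℂ
  let d : Derivation ℂ A K := mkDerivation ℂ w
  let l : Ω[A⁄ℂ] →ₗ[A] K := d.liftKaehlerDifferential
  let φ : Ω[A⁄ℂ] →ₗ[A] Ω[K⁄ℂ] := KaehlerDifferential.map ℂ ℂ A K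
  have : IsLocalizedModule (nonZeroDivisors A) φ := inferInstance
  have hu : ∀ x : nonZeroDivisors A, IsUnit ((algebraMap A (Module.End A K)) x) := by
    intro x
    exact IsLocalizedModule.map_units (Algebra.linearMap A K) x
  let l' : Ω[K⁄ℂ] →ₗ[A] K := IsLocalizedModule.lift (nonZeroDivisors A) φ l hu
  let l'' : Ω[K⁄ℂ] →ₗ[K] K := l'.extendScalarsOfIsLocalization (nonZeroDivisors A) K
  refine ⟨l''.compDer (KaehlerDifferential.D ℂ K), ?_⟩
  intro p
  have h1 : φ (KaehlerDifferential.D ℂ A p) = KaehlerDifferential.D ℂ K (algebraMap A K p) := by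
    simp [φ]
  have h2 : l' (φ (KaehlerDifferential.D ℂ A p)) = l (KaehlerDifferential.D ℂ A p) :=
    IsLocalizedModule.lift_apply (nonZeroDivisors A) φ l hu _
  have h3 : l (KaehlerDifferential.D ℂ A p) = d p := by simp [l]
  change l' (KaehlerDifferential.D ℂ K (algebraMap A K p)) = d p
  rw [← h1, h2, h3]

/-- a derivation is determined by its values on the coordinates -/
theorem der_ext {D D' : Derivation ℂ K K} (ht : D t = D' t) (hy : D y = D' y) : D = D' := by
  have key : ∀ p : MvPolynomial (Fin 2) ℂ, D (algebraMap _ K p) = D' (algebraMap _ K p) := by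
    intro p
    induction p using MvPolynomial.induction_on with
    | C a =>
      have : (algebraMap (MvPolynomial (Fin 2) ℂ) K) (C a) = algebraMap ℂ K a := by
        rw [IsScalarTower.algebraMap_apply ℂ (MvPolynomial (Fin 2) ℂ) K]; rfl
      rw [this]; simp
    | add p q hp hq => rw [map_add, map_add, map_add, hp, hq]
    | mul_X p i hp =>
      rw [map_mul, Derivation.leibniz, Derivation.leibniz, hp]
      congr 2
      fin_cases i
      · exact ht
      · exact hy
  ext f
  obtain ⟨p, q, hq, rfl⟩ := IsFractionRing.div_surjective (A := MvPolynomial (Fin 2) ℂ) f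
  rw [Derivation.leibniz_div, Derivation.leibniz_div, key, key]

/-- the derivation `α ∂_t + β ∂_y` -/
def der (α β : K) : Derivation ℂ K K := Classical.choose (exists_der ![α, β])

theorem der_t (α β : K) : der α β t = α := by
  have := Classical.choose_spec (exists_der ![α, β]) (X 0)
  rw [mkDerivation_X] at this
  exact this

theorem der_y (α β : K) : der α β y = β := by
  have := Classical.choose_spec (exists_der ![α, β]) (X 1)
  rw [mkDerivation_X] at this
  exact this

theorem der_eq (D : Derivation ℂ K K) : D = der (D t) (D y) :=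
  der_ext (der_t _ _).symm (der_y _ _).symm

theorem smul_der (c α β : K) : c • der α β = der (c * α) (c * β) := by
  apply der_ext
  · rw [Derivation.smul_apply, der_t, der_t, smul_eq_mul]
  · rw [Derivation.smul_apply, der_y, der_y, smul_eq_mul]

theorem add_der (α β α' β' : K) : der α β + der α' β' = der (α + α') (β + β') := by
  apply der_ext
  · rw [Derivation.add_apply, der_t, der_t, der_t]
  · rw [Derivation.add_apply, der_y, der_y, der_y]

theorem neg_der (α β : K) : - der α β = der (-α) (-β) := by
  apply der_ext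
  · rw [Derivation.neg_apply, der_t, der_t]
  · rw [Derivation.neg_apply, der_y, der_y]

/-! ## polynomials in `t, y` -/

/-- a polynomial in `t, y` as an element of `K` -/
abbrev pol (p : MvPolynomial (Fin 2) ℂ) : K := algebraMap (MvPolynomial (Fin 2) ℂ) K p

theorem pol_eq_aeval (p : MvPolynomial (Fin 2) ℂ) : pol p = aeval ![t, y] p := by
  induction p using MvPolynomial.induction_on with
  | C a =>
    have : pol (C a) = algebraMap ℂ K a := by
      rw [IsScalarTower.algebraMap_apply ℂ (MvPolynomial (Fin 2) ℂ) K]; rfl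
    rw [this]; simp
  | add p q hp hq => rw [map_add, pol, map_add, ← hp, ← hq]
  | mul_X p i hp =>
    rw [map_mul, pol, map_mul, ← hp, aeval_X]
    congr 1
    fin_cases i
    · rfl
    · rfl

theorem pol_injective : Function.Injective pol := IsFractionRing.injective _ _

theorem pol_ne_zero {p : MvPolynomial (Fin 2) ℂ} (hp : p ≠ 0) : pol p ≠ 0 := by
  intro h
  apply hp
  apply pol_injective
  rw [h, pol, map_zero]

theorem pol_mem {R : Subalgebra ℂ K} (ht : t ∈ R) (hy : y ∈ R) (p : MvPolynomial (Fin 2) ℂ) :
    pol p ∈ R := by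
  rw [pol_eq_aeval]
  induction p using MvPolynomial.induction_on with
  | C a => rw [aeval_C]; exact R.algebraMap_mem a
  | add p q hp hq => rw [map_add]; exact R.add_mem hp hq
  | mul_X p i hp =>
    rw [map_mul, aeval_X]
    refine R.mul_mem hp ?_
    fin_cases i
    · exact ht
    · exact hy

theorem t_sub_ne_zero (a : ℂ) : t - cst a ≠ 0 := by
  have h : (X 0 - C a : MvPolynomial (Fin 2) ℂ) ≠ 0 := by
    intro h
    have := congrArg (MvPolynomial.eval ![a + 1, 0]) h
    simp at this
  have := pol_ne_zero h
  rw [pol_eq_aeval] at this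
  simpa using this

theorem y_sub_ne_zero (a : ℂ) : y - cst a ≠ 0 := by
  have h : (X 1 - C a : MvPolynomial (Fin 2) ℂ) ≠ 0 := by
    intro h
    have := congrArg (MvPolynomial.eval ![0, a + 1]) h
    simp at this
  have := pol_ne_zero h
  rw [pol_eq_aeval] at this
  simpa using this

theorem t_ne_zero : t ≠ 0 := by simpa using t_sub_ne_zero 0

theorem y_ne_zero : y ≠ 0 := by simpa using y_sub_ne_zero 0

/-- polynomials in `t, y` in terms of the coordinates `t - a, y - b` -/
theorem pol_eq_shift (a b : ℂ) (p : MvPolynomial (Fin 2) ℂ) :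
    ∃ q : MvPolynomial (Fin 2) ℂ, pol p = aeval ![t - cst a, y - cst b] q ∧
      constantCoeff q = MvPolynomial.eval ![a, b] p := by
  refine ⟨aeval ![X 0 + C a, X 1 + C b] p, ?_, ?_⟩
  · rw [pol_eq_aeval]
    induction p using MvPolynomial.induction_on with
    | C a => simp
    | add p q hp hq => rw [map_add, map_add, map_add, hp, hq]
    | mul_X p i hp =>
      rw [map_mul, map_mul, map_mul, hp]
      congr 1
      fin_cases i <;> simp
  · induction p using MvPolynomial.induction_on with
    | C a => simp
    | add p q hp hq => rw [map_add, map_add, map_add, hp, hq]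
    | mul_X p i hp =>
      rw [map_mul, map_mul, map_mul, hp]
      congr 1
      fin_cases i <;> simp

theorem inv_pol_mem {a b : ℂ} {p : MvPolynomial (Fin 2) ℂ} (h : MvPolynomial.eval ![a, b] p ≠ 0) :
    (pol p)⁻¹ ∈ loc (t - cst a) (y - cst b) := by
  obtain ⟨q, h1, h2⟩ := pol_eq_shift a b p
  rw [h1]
  exact inv_mem_loc q (by rw [h2]; exact h)

theorem t_mem_aff (a b : ℂ) : t ∈ loc (t - cst a) (y - cst b) := by
  have := (loc (t - cst a) (y - cst b)).add_mem (left_mem_loc _ _)
    (cst_mem (loc (t - cst a) (y - cst b)) a)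
  simpa using this

theorem y_mem_aff (a b : ℂ) : y ∈ loc (t - cst a) (y - cst b) := by
  have := (loc (t - cst a) (y - cst b)).add_mem (right_mem_loc _ _)
    (cst_mem (loc (t - cst a) (y - cst b)) b)
  simpa using this

theorem inv_t_sub_notMem (a b : ℂ) : (t - cst a)⁻¹ ∉ loc (t - cst a) (y - cst b) := by
  rintro ⟨p, q, h0, h, h1⟩
  have h2 : aeval ![t - cst a, y - cst b] q = (t - cst a) * aeval ![t - cst a, y - cst b] p := by
    have := t_sub_ne_zero a
    field_simp at h1
    rw [h1]
  have h3 : ∀ r : MvPolynomial (Fin 2) ℂ, aeval ![t - cst a, y - cst b] r =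
      pol (aeval ![X 0 - C a, X 1 - C b] r) := by
    intro r
    rw [pol_eq_aeval]
    induction r using MvPolynomial.induction_on with
    | C a => simp
    | add p q hp hq => rw [map_add, map_add, map_add, hp, hq]
    | mul_X p i hp =>
      rw [map_mul, map_mul, map_mul, hp]
      congr 1
      fin_cases i <;> simp
  have h4 : t - cst a = pol (X 0 - C a) := by
    rw [pol_eq_aeval]; simp
  rw [h3, h3, h4, ← map_mul] at h2
  have h5 := congrArg (MvPolynomial.eval ![a, b]) (pol_injective h2)
  have h6 : ∀ r : MvPolynomial (Fin 2) ℂ, MvPolynomial.eval ![a, b]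
      (aeval ![X 0 - C a, X 1 - C b] r : MvPolynomial (Fin 2) ℂ) = constantCoeff r := by
    intro r
    induction r using MvPolynomial.induction_on with
    | C a => simp
    | add p q hp hq => rw [map_add, map_add, map_add, hp, hq]
    | mul_X p i hp =>
      rw [map_mul, map_mul, map_mul, hp]
      congr 1
      fin_cases i <;> simp
  rw [h6] at h5
  apply h0
  rw [h5]
  simp

/-- distinct first coordinates give distinct points -/
theorem loc_aff_ne {a b a' b' : ℂ} (h : a ≠ a') :
    loc (t - cst a) (y - cst b) ≠ loc (t - cst a') (y - cst b') := by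
  intro he
  have h1 : (t - cst a)⁻¹ ∈ loc (t - cst a') (y - cst b') := by
    have h2 := inv_left_add_cst_mem (u := t - cst a') (v := y - cst b') (a := a' - a)
      (sub_ne_zero.mpr (Ne.symm h))
    have h3 : t - cst a' + cst (a' - a) = t - cst a := by
      simp only [cst, map_sub]; ring
    rwa [h3] at h2
  rw [← he] at h1
  exact inv_t_sub_notMem a b h1

end

end BlowHirz
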