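import Pool.Agent.BlowHirz.Sym

/-!
# Module ELIM: the elimination at `t = ∞` (pure algebra)

`A` any commutative `K`-algebra (later `A = S`), `Q` a monic polynomial of degree 4, `s = t⁻¹`,
`x = - s² x' - n s θ`, `q = x (Q x + Q' θ)`, and for every `m`: `e_{2r} = q ^ r`,
`e_{2r+1} = q ^ r * (Q x)`, homogeneous of degree `m` in `x, θ`.

Write `L = ℂ[t, t⁻¹]`, `N_m` = forms of degree `m` in `x', θ` with coefficients in `L`.
1. `e_m = ℓ_m x' ^ m + θ r_m` with `r_m ∈ N_{m-1}` and `ℓ_{2r} = (Q s⁴) ^ r`,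
   `ℓ_{2r+1} = (Q s⁴) ^ r * (- Q s²) = - t² (Q s⁴) ^ (r+1)`; here `Q s⁴ ∈ ℂ[s]` has constant term 1
   (as a polynomial in `s`).
2. (division) for `ℓ = ε(s)` or `ℓ = t² ε(s)`, `ε ∈ ℂ[s]`, `ε(0) ≠ 0`, and every `f ∈ L` there is
   `a ∈ ℂ[t]` with `f - a ℓ ∈ t² ℂ[s]`.  (It is enough to do `f = t ^ j`, strong induction on `j`.)
3. (claim) for every `F ∈ N_m` there is `E ∈ ℂ[t]`-span of `{e_j θ ^ (m - j)}` with
   `F - E ∈ t² • H(ℂ[s], x', θ, m)`.  Induction on `m`: `F = f x' ^ m + θ F₁`; take `a` with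
   `f - a ℓ_m ∈ t² ℂ[s]`; then `F - a e_m = (f - a ℓ_m) x' ^ m + θ (F₁ - a r_m)`, use the claim for
   `m - 1`.
4. `P_m := e_m - θ E₁` where `E₁` is given by the claim for `m - 1` and `r_m`.
   So `P_m = ℓ_m x' ^ m + θ (r_m - E₁) ∈ t² • H(ℂ[s], x', θ, m)`, and
   `P_m ∈ Q ^ ⌈m/2⌉ x ^ m + θ H(ℂ[t], x, θ, m - 1)`.
-/

set_option autoImplicit false

namespace BlowHirz

noncomputable section

/-- a polynomial in `t` -/
def ev (P : Polynomial ℂ) : K := Polynomial.aeval t P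

namespace Elim

variable {A : Type} [CommRing A] [Algebra K A]

/-- `smul` by an element of a subalgebra -/
theorem smul_mem_sub {R : Subalgebra ℂ K} (N : Submodule R A) {c : K} (hc : c ∈ R) {z : A}
    (hz : z ∈ N) : c • z ∈ N :=
  N.smul_mem ⟨c, hc⟩ hz

/-- forms of degree `m - 1`, zero for `m = 0` -/
def H' (R : Subalgebra ℂ K) (x θ : A) (m : ℕ) : Submodule R A :=
  Submodule.span R {z | ∃ j k, j + k + 1 = m ∧ z = x ^ j * θ ^ k}

theorem H'_succ (R : Subalgebra ℂ K) (x θ : A) (m : ℕ) : H' R x θ (m + 1) = H R x θ m := by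
  unfold H' H
  congr 1
  ext z
  simp

theorem H'_zero (R : Subalgebra ℂ K) (x θ : A) : H' R x θ 0 = ⊥ := by
  unfold H'
  simp

theorem H'_le (R : Subalgebra ℂ K) (x θ : A) (m : ℕ) : H' R x θ m ≤ H R x θ (m - 1) := by
  cases m with
  | zero => rw [H'_zero]; exact bot_le
  | succ m => rw [H'_succ]; exact le_of_eq rfl

theorem mul_mem_H {R : Subalgebra ℂ K} {x θ : A} {m m' : ℕ} {z z' : A} (hz : z ∈ H R x θ m)
    (hz' : z' ∈ H R x θ m') : z * z' ∈ H R x θ (m + m') := by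
  induction hz using Submodule.span_induction with
  | mem w hw =>
    obtain ⟨j, k, h, rfl⟩ := hw
    induction hz' using Submodule.span_induction with
    | mem w hw =>
      obtain ⟨j', k', h', rfl⟩ := hw
      exact Submodule.subset_span ⟨j + j', k + k', by omega, by ring⟩
    | zero => rw [mul_zero]; exact Submodule.zero_mem _
    | add a b _ _ ha hb => rw [mul_add]; exact Submodule.add_mem _ ha hb
    | smul c a _ ha =>
      rw [mul_smul_comm]; exact Submodule.smul_mem _ c ha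
  | zero => rw [zero_mul]; exact Submodule.zero_mem _
  | add a b _ _ ha hb => rw [add_mul]; exact Submodule.add_mem _ ha hb
  | smul c a _ ha => rw [smul_mul_assoc]; exact Submodule.smul_mem _ c ha

theorem one_mem_H (R : Subalgebra ℂ K) (x θ : A) : (1 : A) ∈ H R x θ 0 :=
  Submodule.subset_span ⟨0, 0, rfl, by simp⟩

theorem left_mem_H (R : Subalgebra ℂ K) (x θ : A) : x ∈ H R x θ 1 :=
  Submodule.subset_span ⟨1, 0, rfl, by simp⟩

theorem right_mem_H (R : Subalgebra ℂ K) (x θ : A) : θ ∈ H R x θ 1 :=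
  Submodule.subset_span ⟨0, 1, rfl, by simp⟩

theorem pow_mem_H {R : Subalgebra ℂ K} {x θ : A} {m : ℕ} {z : A} (hz : z ∈ H R x θ m) (k : ℕ) :
    z ^ k ∈ H R x θ (m * k) := by
  induction k with
  | zero => simpa using one_mem_H R x θ
  | succ k ih => rw [pow_succ, Nat.mul_succ]; exact mul_mem_H ih hz

/-- `z = ℓ x ^ m + θ * (form of degree m - 1)` -/
def Lead (R : Subalgebra ℂ K) (x θ : A) (ℓ : K) (m : ℕ) (z : A) : Prop :=
  ∃ r ∈ H' R x θ m, z = ℓ • x ^ m + θ * r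

theorem lead_one (R : Subalgebra ℂ K) (x θ : A) : Lead R x θ 1 0 1 :=
  ⟨0, Submodule.zero_mem _, by simp⟩

theorem pow_mul_mem_H' {R : Subalgebra ℂ K} {x θ : A} {m m' : ℕ} {z z' : A} (hz : z ∈ H R x θ m)
    (hz' : z' ∈ H' R x θ m') : z * z' ∈ H' R x θ (m + m') := by
  cases m' with
  | zero =>
    rw [H'_zero, Submodule.mem_bot] at hz'
    rw [hz', mul_zero]
    exact Submodule.zero_mem _
  | succ m' =>
    rw [H'_succ] at hz'
    rw [← add_assoc, H'_succ]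
    exact mul_mem_H hz hz'

theorem theta_mul_mem {R : Subalgebra ℂ K} {x θ : A} {m : ℕ} {z : A} (hz : z ∈ H' R x θ m) :
    θ * z ∈ H R x θ m := by
  cases m with
  | zero =>
    rw [H'_zero, Submodule.mem_bot] at hz
    rw [hz, mul_zero]
    exact Submodule.zero_mem _
  | succ m =>
    rw [H'_succ] at hz
    rw [add_comm]
    exact mul_mem_H (right_mem_H R x θ) hz

theorem Lead.mem_H {R : Subalgebra ℂ K} {x θ : A} {ℓ : K} {m : ℕ} {z : A} (hℓ : ℓ ∈ R)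
    (h : Lead R x θ ℓ m z) : z ∈ H R x θ m := by
  obtain ⟨r, hr, rfl⟩ := h
  refine Submodule.add_mem _ (smul_mem_sub _ hℓ ?_) (theta_mul_mem hr)
  simpa using pow_mem_H (left_mem_H R x θ) m

theorem Lead.mul {R : Subalgebra ℂ K} {x θ : A} {ℓ ℓ' : K} {m m' : ℕ} {z z' : A} (hℓ : ℓ ∈ R)
    (hℓ' : ℓ' ∈ R) (h : Lead R x θ ℓ m z) (h' : Lead R x θ ℓ' m' z') :
    Lead R x θ (ℓ * ℓ') (m + m') (z * z') := by
  obtain ⟨r, hr, rfl⟩ := h
  have hz' := h'.mem_H hℓ'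
  obtain ⟨r', hr', rfl⟩ := h'
  refine ⟨ℓ • (x ^ m * r') + r * (ℓ' • x ^ m' + θ * r'), ?_, ?_⟩
  · refine Submodule.add_mem _ (smul_mem_sub _ hℓ ?_) ?_
    · refine pow_mul_mem_H' ?_ hr'
      simpa using pow_mem_H (left_mem_H R x θ) m
    · rw [mul_comm, add_comm m m']
      exact pow_mul_mem_H' hz' hr
  · rw [mul_smul]
    simp only [Algebra.smul_def]
    ring

theorem Lead.pow {R : Subalgebra ℂ K} {x θ : A} {ℓ : K} {m : ℕ} {z : A} (hℓ : ℓ ∈ R)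
    (h : Lead R x θ ℓ m z) (k : ℕ) : Lead R x θ (ℓ ^ k) (m * k) (z ^ k) := by
  induction k with
  | zero => simpa using lead_one R x θ
  | succ k ih =>
    rw [pow_succ, pow_succ, Nat.mul_succ]
    exact ih.mul (R.pow_mem hℓ k) hℓ h

theorem lead_of_mem {R : Subalgebra ℂ K} {x θ : A} {m : ℕ} {F : A} (hF : F ∈ H R x θ m) :
    ∃ f ∈ R, Lead R x θ f m F := by
  induction hF using Submodule.span_induction with
  | mem w hw =>
    obtain ⟨j, k, h, rfl⟩ := hw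
    cases k with
    | zero =>
      refine ⟨1, R.one_mem, 0, Submodule.zero_mem _, ?_⟩
      simp at h
      simp [h]
    | succ k =>
      refine ⟨0, R.zero_mem, x ^ j * θ ^ k, Submodule.subset_span ⟨j, k, by omega, rfl⟩, ?_⟩
      rw [zero_smul, zero_add]; ring
  | zero => exact ⟨0, R.zero_mem, 0, Submodule.zero_mem _, by simp⟩
  | add a b _ _ ha hb =>
    obtain ⟨f, hf, r, hr, rfl⟩ := ha
    obtain ⟨f', hf', r', hr', rfl⟩ := hb
    refine ⟨f + f', R.add_mem hf hf', r + r', Submodule.add_mem _ hr hr', ?_⟩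
    rw [add_smul]; ring
  | smul c a _ ha =>
    obtain ⟨f, hf, r, hr, rfl⟩ := ha
    refine ⟨c * f, R.mul_mem c.2 hf, c • r, Submodule.smul_mem _ c hr, ?_⟩
    rw [smul_add, mul_smul_comm, mul_smul]
    rfl

/-- the three rings -/
abbrev Rp : Subalgebra ℂ K := Algebra.adjoin ℂ {t}
abbrev Rm : Subalgebra ℂ K := Algebra.adjoin ℂ {t⁻¹}
abbrev L : Subalgebra ℂ K := Algebra.adjoin ℂ {t, t⁻¹}

theorem t_mem_Rp : t ∈ Rp := Algebra.subset_adjoin (by simp)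
theorem s_mem_Rm : t⁻¹ ∈ Rm := Algebra.subset_adjoin (by simp)
theorem t_mem_L : t ∈ L := Algebra.subset_adjoin (by simp)
theorem s_mem_L : t⁻¹ ∈ L := Algebra.subset_adjoin (by simp)
theorem Rp_le_L : Rp ≤ L := Algebra.adjoin_mono (by simp)
theorem Rm_le_L : Rm ≤ L := Algebra.adjoin_mono (by simp)

theorem aeval_mem_adjoin (a : K) (P : Polynomial ℂ) :
    Polynomial.aeval a P ∈ Algebra.adjoin ℂ {a} :=
  Polynomial.aeval_mem_adjoin_singleton ℂ a

theorem ev_mem_Rp (P : Polynomial ℂ) : ev P ∈ Rp := aeval_mem_adjoin t P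

/-- `f ∈ Rp ℓ + t² Rm` -/
def Div (ℓ f : K) : Prop := ∃ a ∈ Rp, ∃ b ∈ Rm, f - a * ℓ = t ^ 2 * b

theorem Div.zero (ℓ : K) : Div ℓ 0 := ⟨0, Rp.zero_mem, 0, Rm.zero_mem, by ring⟩

theorem Div.add {ℓ f g : K} (hf : Div ℓ f) (hg : Div ℓ g) : Div ℓ (f + g) := by
  obtain ⟨a, ha, b, hb, h⟩ := hf
  obtain ⟨a', ha', b', hb', h'⟩ := hg
  refine ⟨a + a', Rp.add_mem ha ha', b + b', Rm.add_mem hb hb', ?_⟩
  linear_combination h + h'

theorem Div.cmul {ℓ f : K} (c : ℂ) (hf : Div ℓ f) : Div ℓ (cst c * f) := by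
  obtain ⟨a, ha, b, hb, h⟩ := hf
  refine ⟨cst c * a, Rp.mul_mem (Rp.algebraMap_mem c) ha, cst c * b,
    Rm.mul_mem (Rm.algebraMap_mem c) hb, ?_⟩
  linear_combination cst c * h

theorem Div.sum {ℓ : K} {ι : Type} (s : Finset ι) (f : ι → K) (h : ∀ i ∈ s, Div ℓ (f i)) :
    Div ℓ (∑ i ∈ s, f i) := by
  classical
  induction s using Finset.induction_on with
  | empty => simpa using Div.zero ℓ
  | insert i s hi ih =>
    rw [Finset.sum_insert hi]
    exact (h i (Finset.mem_insert_self i s)).add (ih fun j hj => h j (Finset.mem_insert_of_mem hj))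

theorem div_of_Rm {ℓ b : K} (hb : b ∈ Rm) : Div ℓ b := by
  refine ⟨0, Rp.zero_mem, t⁻¹ ^ 2 * b, Rm.mul_mem (Rm.pow_mem s_mem_Rm 2) hb, ?_⟩
  have := t_ne_zero
  field_simp
  ring

theorem div_pow_small {ℓ : K} {j : ℕ} (hj : j ≤ 2) : Div ℓ (t ^ j) := by
  refine ⟨0, Rp.zero_mem, t⁻¹ ^ (2 - j), Rm.pow_mem s_mem_Rm _, ?_⟩
  have h : t ^ 2 = t ^ j * t ^ (2 - j) := by rw [← pow_add]; congr 1; omega
  have h2 : t ^ (2 - j) * t⁻¹ ^ (2 - j) = 1 := by
    rw [← mul_pow, mul_inv_cancel₀ t_ne_zero, one_pow]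
  rw [h]
  linear_combination -(t ^ j) * h2

theorem div_pow {ε : Polynomial ℂ} (hε : ε.coeff 0 ≠ 0) {i : ℕ} (hi : i ≤ 2) (j : ℕ) :
    Div (t ^ i * Polynomial.aeval t⁻¹ ε) (t ^ j) := by
  induction j using Nat.strong_induction_on with
  | _ j ih =>
    by_cases hj : j ≤ 2
    · exact div_pow_small hj
    push Not at hj
    -- `t ^ j * ε(s) = ε₀ t ^ j + ∑ ε_k t ^ j s ^ k`
    have h1 : t ^ j * Polynomial.aeval t⁻¹ ε = cst (ε.coeff 0) * t ^ j +
        ∑ k ∈ Finset.range ε.natDegree, cst (ε.coeff (k + 1)) * (t ^ j * t⁻¹ ^ (k + 1)) := by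
      rw [Polynomial.aeval_eq_sum_range, Finset.sum_range_succ', mul_add, Finset.mul_sum, add_comm]
      congr 1
      · rw [Algebra.smul_def, pow_zero, mul_one, mul_comm]
      · refine Finset.sum_congr rfl fun k _ => ?_
        rw [Algebra.smul_def]; ring
    have h2 : Div (t ^ i * Polynomial.aeval t⁻¹ ε)
        (∑ k ∈ Finset.range ε.natDegree, cst (ε.coeff (k + 1)) * (t ^ j * t⁻¹ ^ (k + 1))) := by
      refine Div.sum _ _ fun k _ => Div.cmul _ ?_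
      by_cases hk : k + 1 ≤ j
      · have : t ^ j * t⁻¹ ^ (k + 1) = t ^ (j - (k + 1)) := by
          have h : t ^ j = t ^ (j - (k + 1)) * t ^ (k + 1) := by rw [← pow_add]; congr 1; omega
          rw [h, mul_assoc, ← mul_pow, mul_inv_cancel₀ t_ne_zero, one_pow, mul_one]
        rw [this]
        exact ih _ (by omega)
      · have : t ^ j * t⁻¹ ^ (k + 1) = t⁻¹ ^ (k + 1 - j) := by
          have h : t⁻¹ ^ (k + 1) = t⁻¹ ^ j * t⁻¹ ^ (k + 1 - j) := by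
            rw [← pow_add]; congr 1; omega
          rw [h, ← mul_assoc, ← mul_pow, mul_inv_cancel₀ t_ne_zero, one_pow, one_mul]
        rw [this]
        exact div_of_Rm (Rm.pow_mem s_mem_Rm _)
    have h3 : Div (t ^ i * Polynomial.aeval t⁻¹ ε) (t ^ j * Polynomial.aeval t⁻¹ ε) := by
      refine ⟨t ^ (j - i), Rp.pow_mem t_mem_Rp _, 0, Rm.zero_mem, ?_⟩
      have h : t ^ j = t ^ (j - i) * t ^ i := by rw [← pow_add]; congr 1; omega
      rw [h]; ring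
    have h4 : t ^ j = cst (ε.coeff 0)⁻¹ * (t ^ j * Polynomial.aeval t⁻¹ ε +
        cst (-1) * ∑ k ∈ Finset.range ε.natDegree,
          cst (ε.coeff (k + 1)) * (t ^ j * t⁻¹ ^ (k + 1))) := by
      have h5 : cst (ε.coeff 0)⁻¹ * cst (ε.coeff 0) = 1 := by
        rw [← map_mul, inv_mul_cancel₀ hε, map_one]
      have h6 : cst (-1) = -1 := by simp
      rw [h1, h6]
      linear_combination -(t ^ j) * h5
    rw [h4]
    exact (h3.add (h2.cmul _)).cmul _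

theorem mem_L_div {ε : Polynomial ℂ} (hε : ε.coeff 0 ≠ 0) {i : ℕ} (hi : i ≤ 2) {f : K}
    (hf : f ∈ L) : Div (t ^ i * Polynomial.aeval t⁻¹ ε) f := by
  -- every element of `L` is `P(t) * s ^ N`
  have h0 : ∃ N : ℕ, ∃ P : Polynomial ℂ, f = Polynomial.aeval t P * t⁻¹ ^ N := by
    have htt : t * t⁻¹ = 1 := mul_inv_cancel₀ t_ne_zero
    induction hf using Algebra.adjoin_induction with
    | mem x hx =>
      rcases hx with rfl | hx
      · exact ⟨0, Polynomial.X, by simp⟩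
      · rw [Set.mem_singleton_iff] at hx
        subst hx
        exact ⟨1, 1, by simp⟩
    | algebraMap r => exact ⟨0, Polynomial.C r, by simp⟩
    | add x y _ _ hx hy =>
      obtain ⟨N, P, rfl⟩ := hx
      obtain ⟨M, R, rfl⟩ := hy
      refine ⟨N + M, P * Polynomial.X ^ M + R * Polynomial.X ^ N, ?_⟩
      simp only [map_add, map_mul, map_pow, Polynomial.aeval_X]
      have h1 : t ^ M * t⁻¹ ^ M = 1 := by rw [← mul_pow, htt, one_pow]
      have h2 : t ^ N * t⁻¹ ^ N = 1 := by rw [← mul_pow, htt, one_pow]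
      rw [pow_add]
      linear_combination -(Polynomial.aeval t P * t⁻¹ ^ N) * h1 -
        (Polynomial.aeval t R * t⁻¹ ^ M) * h2
    | mul x y _ _ hx hy =>
      obtain ⟨N, P, rfl⟩ := hx
      obtain ⟨M, R, rfl⟩ := hy
      refine ⟨N + M, P * R, ?_⟩
      rw [map_mul, pow_add]; ring
  obtain ⟨N, P, rfl⟩ := h0
  have h1 : Polynomial.aeval t P * t⁻¹ ^ N = ∑ k ∈ Finset.range (P.natDegree + 1),
      P.coeff k • t ^ k * t⁻¹ ^ N := by
    rw [Polynomial.aeval_eq_sum_range, Finset.sum_mul]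
  rw [h1]
  refine Div.sum _ _ fun k _ => ?_
  rw [Algebra.smul_def, mul_assoc]
  refine Div.cmul _ ?_
  by_cases hk : N ≤ k
  · have : t ^ k * t⁻¹ ^ N = t ^ (k - N) := by
      have h : t ^ k = t ^ (k - N) * t ^ N := by rw [← pow_add]; congr 1; omega
      rw [h, mul_assoc, ← mul_pow, mul_inv_cancel₀ t_ne_zero, one_pow, mul_one]
    rw [this]
    exact div_pow hε hi _
  · have : t ^ k * t⁻¹ ^ N = t⁻¹ ^ (N - k) := by
      have h : t⁻¹ ^ N = t⁻¹ ^ k * t⁻¹ ^ (N - k) := by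
        rw [← pow_add]; congr 1; omega
      rw [h, ← mul_assoc, ← mul_pow, mul_inv_cancel₀ t_ne_zero, one_pow, one_mul]
    rw [this]
    exact div_of_Rm (Rm.pow_mem s_mem_Rm _)

variable (Q : Polynomial ℂ) (x θ : A)

/-- `q = x (Q x + Q' θ)` -/
def qq : A := x * (ev Q • x + ev (Polynomial.derivative Q) • θ)

/-- the span of the `e_j θ ^ (m - 1 - j)` -/
def Sp' (m : ℕ) : Submodule Rp A :=
  Submodule.span Rp {z : A | ∃ r e k, e ≤ 1 ∧ 2 * r + e + k + 1 = m ∧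
        z = qq Q x θ ^ r * (ev Q • x) ^ e * θ ^ k}

/-- the span of the `e_j θ ^ (m - j)` -/
def Sp (m : ℕ) : Submodule Rp A :=
  Submodule.span Rp {z : A | ∃ r e k, e ≤ 1 ∧ 2 * r + e + k = m ∧
        z = qq Q x θ ^ r * (ev Q • x) ^ e * θ ^ k}

variable {Q x θ}

theorem Sp'_succ (m : ℕ) : Sp' Q x θ (m + 1) = Sp Q x θ m := by
  unfold Sp' Sp
  simp only [Nat.add_right_cancel_iff]

theorem theta_mul_Sp' {m : ℕ} {z : A} (hz : z ∈ Sp' Q x θ m) : θ * z ∈ Sp Q x θ m := by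
  unfold Sp' at hz
  induction hz using Submodule.span_induction with
  | mem w hw =>
    obtain ⟨r, e, k, he, h, rfl⟩ := hw
    exact Submodule.subset_span ⟨r, e, k + 1, he, by omega, by ring⟩
  | zero => rw [mul_zero]; exact Submodule.zero_mem _
  | add a b _ _ ha hb => rw [mul_add]; exact Submodule.add_mem _ ha hb
  | smul c a _ ha => rw [mul_smul_comm]; exact Submodule.smul_mem _ c ha

theorem lead_left (R : Subalgebra ℂ K) : Lead R x θ 1 1 x :=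
  ⟨0, Submodule.zero_mem _, by simp⟩

theorem Lead.smul {R : Subalgebra ℂ K} {x θ : A} {ℓ : K} {m : ℕ} {z : A} {c : K} (hc : c ∈ R)
    (h : Lead R x θ ℓ m z) : Lead R x θ (c * ℓ) m (c • z) := by
  obtain ⟨r, hr, rfl⟩ := h
  exact ⟨c • r, smul_mem_sub _ hc hr, by rw [smul_add, mul_smul, mul_smul_comm]⟩

theorem Lead.add_theta {R : Subalgebra ℂ K} {x θ : A} {ℓ : K} {z : A} {c : K} (hc : c ∈ R)
    (h : Lead R x θ ℓ 1 z) : Lead R x θ ℓ 1 (z + c • θ) := by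
  obtain ⟨r, hr, rfl⟩ := h
  refine ⟨r + c • 1, Submodule.add_mem _ hr (smul_mem_sub _ hc ?_), ?_⟩
  · rw [show (1 : ℕ) = 0 + 1 from rfl, H'_succ]; exact one_mem_H R x θ
  · rw [mul_add, mul_smul_comm, mul_one, add_assoc]

theorem lead_Rp (r e : ℕ) : Lead Rp x θ (ev Q ^ r * ev Q ^ e) (2 * r + e)
    (qq Q x θ ^ r * (ev Q • x) ^ e) := by
  have h1 : Lead Rp x θ (ev Q) 1 (ev Q • x) := by
    have := (lead_left (x := x) (θ := θ) Rp).smul (ev_mem_Rp Q)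
    rwa [mul_one] at this
  have h2 : Lead Rp x θ (ev Q) 2 (qq Q x θ) := by
    have := (lead_left (x := x) (θ := θ) Rp).mul Rp.one_mem (ev_mem_Rp Q)
      (h1.add_theta (ev_mem_Rp (Polynomial.derivative Q)))
    rwa [one_mul] at this
  have h3 := (h2.pow (ev_mem_Rp Q) r).mul (Rp.pow_mem (ev_mem_Rp Q) r)
    (Rp.pow_mem (ev_mem_Rp Q) e) (h1.pow (ev_mem_Rp Q) e)
  rwa [one_mul] at h3

theorem ev_mem_L (P : Polynomial ℂ) : ev P ∈ L := Rp_le_L (ev_mem_Rp P)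

theorem lead_L {x' : A} {n : ℕ} (hx : x = -((t⁻¹ ^ 2) • x') - ((n : K) * t⁻¹) • θ) (r e : ℕ) :
    Lead L x' θ ((t⁻¹ ^ 4 * ev Q) ^ r * (-(t⁻¹ ^ 2 * ev Q)) ^ e) (2 * r + e)
    (qq Q x θ ^ r * (ev Q • x) ^ e) := by
  have hs2 : -(t⁻¹ ^ 2) ∈ L := L.neg_mem (L.pow_mem s_mem_L 2)
  have hn : -((n : K) * t⁻¹) ∈ L := L.neg_mem (L.mul_mem (natCast_mem L n) s_mem_L)
  have h0 : Lead L x' θ (-(t⁻¹ ^ 2)) 1 x := by
    have h := ((lead_left (x := x') (θ := θ) L).smul hs2).add_theta hn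
    rw [mul_one] at h
    rw [hx, sub_eq_add_neg, ← neg_smul, ← neg_smul]
    exact h
  have hl : ev Q * -(t⁻¹ ^ 2) ∈ L := L.mul_mem (ev_mem_L Q) hs2
  have h1 : Lead L x' θ (ev Q * -(t⁻¹ ^ 2)) 1 (ev Q • x) := h0.smul (ev_mem_L Q)
  have h2 : Lead L x' θ (-(t⁻¹ ^ 2) * (ev Q * -(t⁻¹ ^ 2))) (1 + 1) (qq Q x θ) :=
    h0.mul hs2 hl (h1.add_theta (ev_mem_L (Polynomial.derivative Q)))
  have hll : -(t⁻¹ ^ 2) * (ev Q * -(t⁻¹ ^ 2)) ∈ L := L.mul_mem hs2 hl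
  have e1 : t⁻¹ ^ 4 * ev Q = -(t⁻¹ ^ 2) * (ev Q * -(t⁻¹ ^ 2)) := by ring
  have e2 : -(t⁻¹ ^ 2 * ev Q) = ev Q * -(t⁻¹ ^ 2) := by ring
  rw [e1, e2]
  have h3 := (h2.pow hll r).mul (L.pow_mem hll r) (L.pow_mem hl e) (h1.pow hl e)
  have e3 : 2 * r + e = (1 + 1) * r + 1 * e := by ring
  rw [e3]
  exact h3

theorem rev_eq (hd : Q.natDegree = 4) : t⁻¹ ^ 4 * ev Q = Polynomial.aeval t⁻¹ Q.reverse := by
  let _ : Invertible t := invertibleOfNonzero t_ne_zero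
  have h := Polynomial.eval₂_reverse_mul_pow (algebraMap ℂ K) t Q
  rw [hd, invOf_eq_inv] at h
  have ht := t_ne_zero
  unfold ev
  rw [Polynomial.aeval_def, Polynomial.aeval_def, ← h]
  have h2 : t⁻¹ ^ 4 * t ^ 4 = 1 := by rw [← mul_pow, inv_mul_cancel₀ t_ne_zero, one_pow]
  linear_combination (Polynomial.eval₂ (algebraMap ℂ K) t⁻¹ Q.reverse) * h2

/-- the leading coefficient in the good shape -/
theorem lead_shape (hQ : Q.Monic) (hd : Q.natDegree = 4) (r e : ℕ) (he : e ≤ 1) :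
    ∃ ε : Polynomial ℂ, ε.coeff 0 ≠ 0 ∧ ∃ i ≤ 2,
      (t⁻¹ ^ 4 * ev Q) ^ r * (-(t⁻¹ ^ 2 * ev Q)) ^ e = t ^ i * Polynomial.aeval t⁻¹ ε := by
  have hc : Q.reverse.coeff 0 = 1 := by
    rw [Polynomial.coeff_zero_reverse]; exact hQ
  have ht := t_ne_zero
  interval_cases e
  · refine ⟨Q.reverse ^ r, ?_, 0, by omega, ?_⟩
    · rw [Polynomial.coeff_zero_eq_eval_zero, Polynomial.eval_pow,
        ← Polynomial.coeff_zero_eq_eval_zero, hc, one_pow]
      exact one_ne_zero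
    · rw [rev_eq hd, map_pow]; ring
  · refine ⟨-Q.reverse ^ (r + 1), ?_, 2, le_rfl, ?_⟩
    · rw [Polynomial.coeff_zero_eq_eval_zero, Polynomial.eval_neg, Polynomial.eval_pow,
        ← Polynomial.coeff_zero_eq_eval_zero, hc, one_pow]
      exact neg_ne_zero.mpr one_ne_zero
    · have h : t⁻¹ ^ 2 * ev Q = t ^ 2 * (t⁻¹ ^ 4 * ev Q) := by field_simp
      rw [h, rev_eq hd, map_neg, map_pow, pow_succ]; ring

theorem claim {x' : A} {n : ℕ} (hx : x = -((t⁻¹ ^ 2) • x') - ((n : K) * t⁻¹) • θ)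
    (hQ : Q.Monic) (hd : Q.natDegree = 4) (m : ℕ) : ∀ F ∈ H' L x' θ m,
    ∃ E ∈ Sp' Q x θ m, ∃ w ∈ H' Rm x' θ m, F - E = t ^ 2 • w := by
  induction m with
  | zero =>
    intro F hF
    rw [H'_zero, Submodule.mem_bot] at hF
    exact ⟨0, Submodule.zero_mem _, 0, Submodule.zero_mem _, by rw [hF]; simp⟩
  | succ m ih =>
    intro F hF
    rw [H'_succ] at hF
    obtain ⟨f, hf, F₁, hF₁, rfl⟩ := lead_of_mem hF
    obtain ⟨r, e, he, hm⟩ : ∃ r e, e ≤ 1 ∧ m = 2 * r + e := ⟨m / 2, m % 2, by omega, by omega⟩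
    obtain ⟨rm, hrm, hem⟩ := lead_L (Q := Q) hx r e
    rw [← hm] at hrm hem
    obtain ⟨ε, hε, i, hi, hl⟩ := lead_shape hQ hd r e he
    obtain ⟨a, ha, b, hb, hab⟩ := mem_L_div hε hi hf
    rw [← hl] at hab
    set ℓ := (t⁻¹ ^ 4 * ev Q) ^ r * (-(t⁻¹ ^ 2 * ev Q)) ^ e with hℓ
    obtain ⟨E₁, hE₁, w₁, hw₁, h₁⟩ := ih (F₁ - a • rm)
      (Submodule.sub_mem _ hF₁ (smul_mem_sub _ (Rp_le_L ha) hrm))
    refine ⟨a • (qq Q x θ ^ r * (ev Q • x) ^ e) + θ * E₁, ?_, b • x' ^ m + θ * w₁, ?_, ?_⟩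
    · rw [Sp'_succ]
      refine Submodule.add_mem _ (smul_mem_sub _ ha ?_) (theta_mul_Sp' hE₁)
      exact Submodule.subset_span ⟨r, e, 0, he, by omega, by simp⟩
    · rw [H'_succ]
      refine Submodule.add_mem _ (smul_mem_sub _ hb ?_) (theta_mul_mem hw₁)
      simpa using pow_mem_H (left_mem_H Rm x' θ) m
    · rw [hem]
      have h2 : f = t ^ 2 * b + a * ℓ := by linear_combination hab
      have h3 : F₁ = E₁ + t ^ 2 • w₁ + a • rm := by
        rw [← h₁]; ring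
      rw [h2, h3]
      simp only [Algebra.smul_def, map_mul, map_add, map_pow]
      ring

end Elim

open Elim

theorem elim {A : Type} [CommRing A] [Algebra K A] (Q : Polynomial ℂ) (hQ : Q.Monic)
    (hd : Q.natDegree = 4) (n : ℕ) (x θ x' : A)
    (hx : x = -((t⁻¹ ^ 2) • x') - ((n : K) * t⁻¹) • θ) (m : ℕ) :
    ∃ P : A,
      P ∈ Submodule.span (Algebra.adjoin ℂ {t}) {z : A | ∃ r e k, e ≤ 1 ∧ 2 * r + e + k = m ∧
        z = (x * (ev Q • x + ev (Polynomial.derivative Q) • θ)) ^ r * (ev Q • x) ^ e * θ ^ k} ∧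
      (∃ w ∈ H (Algebra.adjoin ℂ {t⁻¹}) x' θ m, P = t ^ 2 • w) ∧
      (∃ w ∈ H (Algebra.adjoin ℂ {t}) x θ (m - 1), P = (ev Q ^ ((m + 1) / 2)) • x ^ m + θ * w) := by
  obtain ⟨r, e, he, hm⟩ : ∃ r e, e ≤ 1 ∧ m = 2 * r + e := ⟨m / 2, m % 2, by omega, by omega⟩
  obtain ⟨rm, hrm, hem⟩ := lead_L (Q := Q) hx r e
  rw [← hm] at hrm hem
  obtain ⟨rp, hrp, hep⟩ := lead_Rp (Q := Q) (x := x) (θ := θ) r e
  rw [← hm] at hrp hep
  obtain ⟨ε, hε, i, hi, hl⟩ := lead_shape hQ hd r e he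
  obtain ⟨E₁, hE₁, w₁, hw₁, h₁⟩ := claim hx hQ hd m rm hrm
  refine ⟨qq Q x θ ^ r * (ev Q • x) ^ e - θ * E₁, ?_, ?_, ?_⟩
  · refine Submodule.sub_mem (Sp Q x θ m) ?_ (theta_mul_Sp' hE₁)
    exact Submodule.subset_span ⟨r, e, 0, he, by omega, by simp⟩
  · have hb : t⁻¹ ^ (2 - i) * Polynomial.aeval t⁻¹ ε ∈ Rm :=
      Rm.mul_mem (Rm.pow_mem s_mem_Rm _) (aeval_mem_adjoin _ _)
    have hb2 : t ^ i * Polynomial.aeval t⁻¹ ε =
        t ^ 2 * (t⁻¹ ^ (2 - i) * Polynomial.aeval t⁻¹ ε) := by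
      have h : t ^ 2 = t ^ i * t ^ (2 - i) := by rw [← pow_add]; congr 1; omega
      have h2 : t ^ (2 - i) * t⁻¹ ^ (2 - i) = 1 := by
        rw [← mul_pow, mul_inv_cancel₀ t_ne_zero, one_pow]
      rw [h]
      linear_combination -(t ^ i * Polynomial.aeval t⁻¹ ε) * h2
    refine ⟨(t⁻¹ ^ (2 - i) * Polynomial.aeval t⁻¹ ε) • x' ^ m + θ * w₁, ?_, ?_⟩
    · refine Submodule.add_mem _ (smul_mem_sub _ hb ?_) (theta_mul_mem hw₁)
      simpa using pow_mem_H (left_mem_H Rm x' θ) m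
    · rw [hem, hl, hb2]
      have h3 : rm = E₁ + t ^ 2 • w₁ := by rw [← h₁]; ring
      rw [h3]
      simp only [Algebra.smul_def, map_mul, map_add, map_pow]
      ring
  · have hE : E₁ ∈ H' Rp x θ m := by
      refine (Submodule.span_le.mpr ?_ : Sp' Q x θ m ≤ H' Rp x θ m) hE₁
      rintro z ⟨r', e', k', he', h', rfl⟩
      have h4 := (lead_Rp (Q := Q) (x := x) (θ := θ) r' e').mem_H
        (Rp.mul_mem (Rp.pow_mem (ev_mem_Rp Q) r') (Rp.pow_mem (ev_mem_Rp Q) e'))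
      have h5 := mul_mem_H h4 (pow_mem_H (right_mem_H Rp x θ) k')
      rw [← h', H'_succ]
      simpa using h5
    refine ⟨rp - E₁, H'_le _ _ _ _ (Submodule.sub_mem _ hrp hE), ?_⟩
    rw [hep, ← pow_add]
    have h6 : (m + 1) / 2 = r + e := by omega
    rw [h6]
    ring

end

end BlowHirz
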