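import Pool.Agent.BlowHirz.Gen
import Pool.Agent.BlowHirz.Elim

/-!
# Module BIG: four points on a section `y = h(t)`, `deg h ≤ n` (in particular `n ≥ 3`)

`X = ∂_t + h' ∂_y`, `Θ = (y - h) ∂_y`, `E = Q X + Q' Θ` (radial at all four points), `Q = ∏ (t - t_i)`,
`X' = - t² X - n t Θ` (regular at `t = ∞`).  `Θ`, `Q X` and `X · E` are regular at the finite points, so
the `P` of `elim` are in `symStalk R m` for the finite points and `t⁻² P` is for the points with `t = ∞`.
-/

set_option autoImplicit false

namespace BlowHirz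

open MvPolynomial

noncomputable section

theorem pseff_of_curve (n : ℕ) (p : Fin 4 × Fin 2 → ℂ) (hp : Dist p) (h : Polynomial ℂ)
    (hdeg : h.natDegree ≤ n) (hh : ∀ i, h.eval (p (i, 0)) = p (i, 1)) :
    PseudoEffectiveTangent (blownUp n p) := by
  sorry

theorem pseff_big (n : ℕ) (hn : 3 ≤ n) (p : Fin 4 × Fin 2 → ℂ) (hp : Dist p) :
    PseudoEffectiveTangent (blownUp n p) := by
  sorry

end

end BlowHirz
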