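import Mathlib

set_option autoImplicit false

namespace BlowHirz

open MvPolynomial

noncomputable section

/-- The field `K = ℂ(t, y)` of rational functions in two variables. -/
abbrev K : Type := FractionRing (MvPolynomial (Fin 2) ℂ)

/-- the first coordinate function -/
def t : K := algebraMap (MvPolynomial (Fin 2) ℂ) K (X 0)

/-- the second coordinate function -/
def y : K := algebraMap (MvPolynomial (Fin 2) ℂ) K (X 1)

/-- constants -/
abbrev cst (a : ℂ) : K := algebraMap ℂ K a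

/-- The local ring at the origin of the coordinates `u, v`: all `p(u,v) / q(u,v)` with
`q(0,0) ≠ 0`. -/
def loc (u v : K) : Subalgebra ℂ K where
  carrier := {f | ∃ p q : MvPolynomial (Fin 2) ℂ, constantCoeff q ≠ 0 ∧ aeval ![u, v] q ≠ 0 ∧
    f = aeval ![u, v] p / aeval ![u, v] q}
  mul_mem' := by
    rintro a b ⟨p, q, h1, h2, rfl⟩ ⟨p', q', h1', h2', rfl⟩
    refine ⟨p * p', q * q', ?_, ?_, ?_⟩
    · rw [map_mul]; exact mul_ne_zero h1 h1'
    · rw [map_mul]; exact mul_ne_zero h2 h2'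
    · rw [map_mul, map_mul, div_mul_div_comm]
  add_mem' := by
    rintro a b ⟨p, q, h1, h2, rfl⟩ ⟨p', q', h1', h2', rfl⟩
    refine ⟨p * q' + q * p', q * q', ?_, ?_, ?_⟩
    · rw [map_mul]; exact mul_ne_zero h1 h1'
    · rw [map_mul]; exact mul_ne_zero h2 h2'
    · rw [map_mul, map_add, map_mul, map_mul, div_add_div _ _ h2 h2']
  algebraMap_mem' := by
    intro a
    refine ⟨C a, 1, ?_, ?_, ?_⟩
    · simp
    · simp
    · simp

/-- The Hirzebruch surface `𝔽_n` -/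
def hirzebruch (n : ℕ) : Set (Subalgebra ℂ K) :=
  {R | (∃ a b : ℂ, R = loc (t - cst a) (y - cst b)) ∨
    (∃ a : ℂ, R = loc (t - cst a) y⁻¹) ∨
    (∃ b : ℂ, R = loc t⁻¹ (y / t ^ n - cst b)) ∨
    R = loc t⁻¹ (t ^ n / y)}

/-- blow-up of the point with local ring `loc u v` -/
def blowUp (X : Set (Subalgebra ℂ K)) (u v : K) : Set (Subalgebra ℂ K) :=
  {R | (R ∈ X ∧ R ≠ loc u v) ∨ (∃ c : ℂ, R = loc u (v / u - cst c)) ∨ R = loc (u / v) v}

/-- tangent stalk -/
def tangent (R : Subalgebra ℂ K) : Submodule R (Derivation ℂ K K) where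
  carrier := {D | ∀ f ∈ R, D f ∈ R}
  add_mem' := by
    intro a b ha hb f hf
    exact R.add_mem (ha f hf) (hb f hf)
  zero_mem' := by
    intro f _
    exact R.zero_mem
  smul_mem' := by
    intro c D hD f hf
    exact R.mul_mem c.2 (hD f hf)

/-- The symmetric algebra of the `K`-vector space of derivations of `K`. -/
abbrev S : Type := SymmetricAlgebra K (Derivation ℂ K K)

/-- the inclusion of derivations in the symmetric algebra -/
abbrev ι : Derivation ℂ K K →ₗ[K] S := SymmetricAlgebra.ι K (Derivation ℂ K K)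

/-- stalk of `Sym^m T_X` -/
def symStalk (R : Subalgebra ℂ K) (m : ℕ) : Submodule R S :=
  Submodule.span R {z | ∃ D : Fin m → Derivation ℂ K K, (∀ i, D i ∈ tangent R) ∧
    z = ∏ i, ι (D i)}

/-- stalk of `A ⊗ Sym^m T_X`. -/
def twistStalk (V : Submodule ℂ K) (R : Subalgebra ℂ K) (m : ℕ) : Submodule R S :=
  Submodule.span R {z | ∃ v ∈ V, ∃ w ∈ symStalk R m, z = v • w}

/-- global sections -/
def globalSections (X : Set (Subalgebra ℂ K)) (V : Submodule ℂ K) (m : ℕ) : Set S :=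
  {z | ∀ R ∈ X, z ∈ twistStalk V R m}

/-- very ample -/
structure VeryAmple (X : Set (Subalgebra ℂ K)) (V : Submodule ℂ K) : Prop where
  fg : V.FG
  emb : ∀ R ∈ X, ∃ σ ∈ V, σ ≠ 0 ∧ (∀ v ∈ V, v / σ ∈ R) ∧
    ∀ f ∈ R, ∃ g ∈ Algebra.adjoin ℂ {w | ∃ v ∈ V, w = v / σ},
      ∃ h ∈ Algebra.adjoin ℂ {w | ∃ v ∈ V, w = v / σ}, h ≠ 0 ∧ h⁻¹ ∈ R ∧ f = g / h

def PseudoEffectiveTangent (X : Set (Subalgebra ℂ K)) : Prop :=
  ∃ V : Submodule ℂ K, VeryAmple X V ∧
    ∃ f : MvPolynomial (Fin 2) ℂ, f ≠ 0 ∧ ∀ a b : ℂ, eval ![a, b] f ≠ 0 →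
      loc (t - cst a) (y - cst b) ∈ X ∧
      ∀ m, 1 ≤ m → twistStalk V (loc (t - cst a) (y - cst b)) m ≤
        Submodule.span (loc (t - cst a) (y - cst b)) (globalSections X V m)

/-- the blow-up of `𝔽_n` at the four points `p i = (p (i,0), p (i,1))` -/
def blownUp (n : ℕ) (p : Fin 4 × Fin 2 → ℂ) : Set (Subalgebra ℂ K) :=
  blowUp (blowUp (blowUp (blowUp (hirzebruch n)
    (t - cst (p (0, 0))) (y - cst (p (0, 1))))
    (t - cst (p (1, 0))) (y - cst (p (1, 1))))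
    (t - cst (p (2, 0))) (y - cst (p (2, 1))))
    (t - cst (p (3, 0))) (y - cst (p (3, 1)))

end

end BlowHirz
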