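import Pool.Agent.BlowHirz.Sym

/-!
# Module EMBED: the linear system and its very ampleness

`linSys n p` is spanned by the functions `t ^ a * y ^ b * ∏ i, ℓ_i`, `ℓ_i ∈ {t - t_i, y - y_i}`, with
`b + #ε ≤ 5` and `a + (4 - #ε) + n (b + #ε) ≤ 5 n + 14` where `#ε` is the number of `i` with
`ℓ_i = y - y_i`.  It is contained in `H⁰(X, 5 [y = ∞] + (5 n + 14) [t = ∞] - E_1 - ... - E_4)`.

Criterion: for `R = loc u v` it is enough to have `σ ∈ V`, `σ ≠ 0`, `σ * u ∈ V`, `σ * v ∈ V` and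
`v' / σ ∈ R` for `v' ∈ V` (for `f = aeval p / aeval q` take `g = aeval ![u, v] p`,
`h = aeval ![u, v] q`, since `u = (σ u) / σ`).
Choice of `σ` (write `Q = ∏ (t - t_i)`):
* affine points `(a,b) ≠ p_i`: `σ = ∏ ℓ_i` where `ℓ_i = t - t_i` if `a ≠ t_i`, and `y - y_i` if not
  (then `b ≠ y_i`); all `ℓ_i` are units in `R` and `V ⊆ ℂ[t,y] ⊆ R`;
* `R = loc (t - a) y⁻¹`: `σ = y * ∏ (y - y_i)`; `v' / y ^ 5 ∈ R` for the generators `v'` and
  `y ^ 5 / σ = ∏ (1 - y_i y⁻¹)⁻¹ ∈ R`;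
* `R = loc t⁻¹ (y / t ^ n - c)`: `σ = t ^ (5 n + 10) * Q`; `v' / t ^ (5 n + 14) ∈ R` since
  `t ^ i y ^ j / t ^ (5 n + 14) = (t⁻¹) ^ (5 n + 14 - i - n j) * (y / t ^ n) ^ j`;
* `R = loc t⁻¹ (t ^ n / y)`: `σ = y ^ 5 * t ^ 10 * Q`; `v' / (y ^ 5 t ^ 14) ∈ R` since
  `t ^ i y ^ j / (y ^ 5 t ^ 14) = (t ^ n / y) ^ (5 - j) (t⁻¹) ^ (5 n + 14 - i - n j)`;
* exceptional point, `g = t - t_i`: `σ = Q`;  `σ * ((y - y_i) / (t - t_i)) =
  (y - y_i) * ∏_{j ≠ i} (t - t_j)`; for a generator `v'`, `v' / (t - t_i) ∈ R` as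
  `ℓ_i / (t - t_i) ∈ R`; `(t - t_i) / σ = ∏_{j ≠ i} (t - t_j)⁻¹ ∈ R`;
* exceptional point, `g = y - y_i`: `σ = (y - y_i) * ∏_{j ≠ i} (t - t_j)`.
-/

set_option autoImplicit false

namespace BlowHirz

open MvPolynomial

noncomputable section

/-- generators of the linear system -/
def gen (p : Fin 4 × Fin 2 → ℂ) (ε : Fin 4 → Bool) (a b : ℕ) : K :=
  t ^ a * y ^ b * ∏ i, (if ε i then y - cst (p (i, 1)) else t - cst (p (i, 0)))

/-- the number of factors `y - y_i` -/
def num (ε : Fin 4 → Bool) : ℕ := (Finset.univ.filter (fun i => ε i = true)).card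

/-- the linear system -/
def linSys (n : ℕ) (p : Fin 4 × Fin 2 → ℂ) : Submodule ℂ K :=
  Submodule.span ℂ {z | ∃ ε a b, b + num ε ≤ 5 ∧
    a + (4 - num ε) + n * (b + num ε) ≤ 5 * n + 14 ∧ z = gen p ε a b}

/-- the product of the `t - t_i` -/
def Qt (p : Fin 4 × Fin 2 → ℂ) : K := ∏ i : Fin 4, (t - cst (p (i, 0)))

/-- the factors of the generators -/
def lf (p : Fin 4 × Fin 2 → ℂ) (i : Fin 4) (e : Bool) : K :=
  if e then y - cst (p (i, 1)) else t - cst (p (i, 0))

theorem lf_ne_zero (p : Fin 4 × Fin 2 → ℂ) (i : Fin 4) (e : Bool) : lf p i e ≠ 0 := by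
  unfold lf
  split_ifs
  · exact y_sub_ne_zero _
  · exact t_sub_ne_zero _

theorem gen_eq (p : Fin 4 × Fin 2 → ℂ) (ε : Fin 4 → Bool) (a b : ℕ) :
    gen p ε a b = t ^ a * y ^ b * ∏ i, lf p i (ε i) := rfl

theorem num_le (ε : Fin 4 → Bool) : num ε ≤ 4 := by
  have := Finset.card_filter_le (Finset.univ : Finset (Fin 4)) (fun i => ε i = true)
  simpa [num] using this

theorem prod_bool {x z : K} (ε : Fin 4 → Bool) :
    ∏ i, (if ε i then x else z) = x ^ num ε * z ^ (4 - num ε) := by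
  rw [Finset.prod_ite, Finset.prod_const, Finset.prod_const]
  congr 2
  have h := Finset.card_filter_add_card_filter_not (s := (Finset.univ : Finset (Fin 4)))
    (fun i => ε i = true)
  rw [Finset.card_univ, Fintype.card_fin] at h
  have h' : num ε = (Finset.univ.filter (fun i => ε i = true)).card := rfl
  omega

theorem gen_mem {n : ℕ} (p : Fin 4 × Fin 2 → ℂ) (ε : Fin 4 → Bool) {a b : ℕ}
    (h1 : b + num ε ≤ 5) (h2 : a + (4 - num ε) + n * (b + num ε) ≤ 5 * n + 14) :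
    gen p ε a b ∈ linSys n p := Submodule.subset_span ⟨ε, a, b, h1, h2, rfl⟩

theorem gen_ne_zero (p : Fin 4 × Fin 2 → ℂ) (ε : Fin 4 → Bool) (a b : ℕ) : gen p ε a b ≠ 0 := by
  rw [gen_eq]
  exact mul_ne_zero (mul_ne_zero (pow_ne_zero _ t_ne_zero) (pow_ne_zero _ y_ne_zero))
    (Finset.prod_ne_zero_iff.2 fun i _ => lf_ne_zero p i _)

theorem num_false : num (fun _ => false) = 0 := by simp [num]

theorem num_true : num (fun _ => true) = 4 := by simp [num]

theorem num_single (i : Fin 4) : num (fun j => decide (j = i)) = 1 := by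
  simp [num, Finset.filter_eq']

theorem gen_false (p : Fin 4 × Fin 2 → ℂ) (a b : ℕ) :
    gen p (fun _ => false) a b = t ^ a * y ^ b * Qt p := by
  rw [gen_eq]; rfl

theorem pow_mul_Qt_mem (n : ℕ) (p : Fin 4 × Fin 2 → ℂ) {a : ℕ} (ha : a ≤ 10) :
    t ^ a * Qt p ∈ linSys n p := by
  have h := gen_mem (n := n) (a := a) (b := 0) p (fun _ => false)
    (by rw [num_false]; omega) (by rw [num_false]; omega)
  rwa [gen_false, pow_zero, mul_one] at h

theorem pol_mem_A2 (q : MvPolynomial (Fin 2) ℂ) : pol q ∈ A2 := ⟨q, rfl⟩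

theorem t_mem_A2 : t ∈ A2 := pol_mem_A2 (X 0)

theorem y_mem_A2 : y ∈ A2 := pol_mem_A2 (X 1)

theorem lf_mem {R : Subalgebra ℂ K} (ht : t ∈ R) (hy : y ∈ R) (p : Fin 4 × Fin 2 → ℂ) (i : Fin 4)
    (e : Bool) : lf p i e ∈ R := by
  unfold lf
  split_ifs
  · exact R.sub_mem hy (cst_mem R _)
  · exact R.sub_mem ht (cst_mem R _)

theorem linSys_le_A2 (n : ℕ) (p : Fin 4 × Fin 2 → ℂ) {v : K} (hv : v ∈ linSys n p) : v ∈ A2 := by
  have h : linSys n p ≤ Subalgebra.toSubmodule A2 := by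
    refine Submodule.span_le.2 ?_
    rintro _ ⟨ε, a, b, _, _, rfl⟩
    change gen p ε a b ∈ A2
    rw [gen_eq]
    exact A2.mul_mem (A2.mul_mem (A2.pow_mem t_mem_A2 _) (A2.pow_mem y_mem_A2 _))
      (Subalgebra.prod_mem _ fun i _ => lf_mem t_mem_A2 y_mem_A2 p i _)
  exact h hv

/-- it is enough to test the generators -/
theorem div_mem_of_gen {n : ℕ} {p : Fin 4 × Fin 2 → ℂ} {R : Subalgebra ℂ K} {σ : K}
    (h : ∀ ε a b, b + num ε ≤ 5 → a + (4 - num ε) + n * (b + num ε) ≤ 5 * n + 14 →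
      gen p ε a b / σ ∈ R) {v : K} (hv : v ∈ linSys n p) : v / σ ∈ R := by
  unfold linSys at hv
  induction hv using Submodule.span_induction with
  | mem x hx =>
    obtain ⟨ε, a, b, h1, h2, rfl⟩ := hx
    exact h ε a b h1 h2
  | zero => rw [zero_div]; exact R.zero_mem
  | add x z _ _ hx hz => rw [add_div]; exact R.add_mem hx hz
  | smul c x _ hx =>
    rw [smul_div_assoc]
    exact R.smul_mem hx c

theorem emb_of {V : Submodule ℂ K} {u w σ : K} (h1 : σ ∈ V) (h0 : σ ≠ 0) (hu : σ * u ∈ V)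
    (hw : σ * w ∈ V) (hV : ∀ v ∈ V, v / σ ∈ loc u w) :
    ∃ σ ∈ V, σ ≠ 0 ∧ (∀ v ∈ V, v / σ ∈ loc u w) ∧
    ∀ f ∈ loc u w, ∃ g ∈ Algebra.adjoin ℂ {w | ∃ v ∈ V, w = v / σ},
      ∃ h ∈ Algebra.adjoin ℂ {w | ∃ v ∈ V, w = v / σ}, h ≠ 0 ∧ h⁻¹ ∈ loc u w ∧ f = g / h := by
  refine ⟨σ, h1, h0, hV, ?_⟩
  have hu' : u ∈ Algebra.adjoin ℂ {w | ∃ v ∈ V, w = v / σ} :=
    Algebra.subset_adjoin ⟨_, hu, by rw [mul_div_cancel_left₀ _ h0]⟩
  have hw' : w ∈ Algebra.adjoin ℂ {w | ∃ v ∈ V, w = v / σ} :=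
    Algebra.subset_adjoin ⟨_, hw, by rw [mul_div_cancel_left₀ _ h0]⟩
  have key : ∀ q : MvPolynomial (Fin 2) ℂ,
      aeval ![u, w] q ∈ Algebra.adjoin ℂ {w | ∃ v ∈ V, w = v / σ} := by
    intro q
    induction q using MvPolynomial.induction_on with
    | C a => rw [aeval_C]; exact Subalgebra.algebraMap_mem _ a
    | add p q hp hq => rw [map_add]; exact Subalgebra.add_mem _ hp hq
    | mul_X p i hp =>
      rw [map_mul, aeval_X]
      refine Subalgebra.mul_mem _ hp ?_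
      fin_cases i
      · exact hu'
      · exact hw'
  rintro f ⟨q, r, hr0, hr, rfl⟩
  exact ⟨_, key q, _, key r, hr, inv_mem_loc r hr0, rfl⟩

/-- the case `σ = gen p δ 0 0` -/
theorem emb_of_gen {n : ℕ} {p : Fin 4 × Fin 2 → ℂ} {u w : K} (δ : Fin 4 → Bool)
    (ht : t ∈ loc u w) (hy : y ∈ loc u w)
    (hu : gen p δ 0 0 * u ∈ linSys n p) (hw : gen p δ 0 0 * w ∈ linSys n p)
    (h : ∀ i e, lf p i e / lf p i (δ i) ∈ loc u w) :
    ∃ σ ∈ linSys n p, σ ≠ 0 ∧ (∀ v ∈ linSys n p, v / σ ∈ loc u w) ∧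
    ∀ f ∈ loc u w, ∃ g ∈ Algebra.adjoin ℂ {w | ∃ v ∈ linSys n p, w = v / σ},
      ∃ h ∈ Algebra.adjoin ℂ {w | ∃ v ∈ linSys n p, w = v / σ},
        h ≠ 0 ∧ h⁻¹ ∈ loc u w ∧ f = g / h := by
  have hδ := num_le δ
  have hn : n * (0 + num δ) ≤ n * 4 := Nat.mul_le_mul_left _ (by omega)
  refine emb_of (gen_mem (n := n) (a := 0) (b := 0) p δ (by omega) (by omega))
    (gen_ne_zero p δ 0 0) hu hw fun v hv => div_mem_of_gen (fun ε a b _ _ => ?_) hv
  rw [gen_eq, gen_eq, pow_zero, pow_zero, one_mul, one_mul, mul_div_assoc,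
    ← Finset.prod_div_distrib]
  exact (loc u w).mul_mem ((loc u w).mul_mem ((loc u w).pow_mem ht _) ((loc u w).pow_mem hy _))
    (Subalgebra.prod_mem _ fun i _ => h i _)

theorem gen_mul_t {p : Fin 4 × Fin 2 → ℂ} {ε : Fin 4 → Bool} (a b : ℕ) :
    gen p ε a b * t = gen p ε (a + 1) b := by
  rw [gen_eq, gen_eq]; ring

theorem gen_mul_y {p : Fin 4 × Fin 2 → ℂ} {ε : Fin 4 → Bool} (a b : ℕ) :
    gen p ε a b * y = gen p ε a (b + 1) := by
  rw [gen_eq, gen_eq]; ring

theorem mul_sub_cst_mem {V : Submodule ℂ K} {σ u : K} (h0 : σ ∈ V) (h : σ * u ∈ V) (a : ℂ) :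
    σ * (u - cst a) ∈ V := by
  have h1 : σ * (u - cst a) = σ * u - a • σ := by
    rw [Algebra.smul_def]; ring
  rw [h1]
  exact V.sub_mem h (V.smul_mem a h0)

theorem linSys_fg (n : ℕ) (p : Fin 4 × Fin 2 → ℂ) : (linSys n p).FG := by
  refine Submodule.fg_span ?_
  have h : {z | ∃ ε a b, b + num ε ≤ 5 ∧ a + (4 - num ε) + n * (b + num ε) ≤ 5 * n + 14 ∧
      z = gen p ε a b} ⊆ (fun x : (Fin 4 → Bool) × ℕ × ℕ => gen p x.1 x.2.1 x.2.2) ''
        (Set.univ ×ˢ (Set.Iic (5 * n + 14) ×ˢ Set.Iic 5)) := by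
    rintro _ ⟨ε, a, b, h1, h2, rfl⟩
    refine ⟨(ε, a, b), ⟨Set.mem_univ _, ?_, ?_⟩, rfl⟩
    · change a ≤ 5 * n + 14
      omega
    · change b ≤ 5
      omega
  refine Set.Finite.subset (Set.Finite.image _ ?_) h
  exact Set.finite_univ.prod ((Set.finite_Iic _).prod (Set.finite_Iic _))

theorem emb_aff {n : ℕ} {p : Fin 4 × Fin 2 → ℂ} {a b : ℂ}
    (h : ∀ i, (a, b) ≠ (p (i, 0), p (i, 1))) :
    ∃ σ ∈ linSys n p, σ ≠ 0 ∧ (∀ v ∈ linSys n p, v / σ ∈ loc (t - cst a) (y - cst b)) ∧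
    ∀ f ∈ loc (t - cst a) (y - cst b), ∃ g ∈ Algebra.adjoin ℂ {w | ∃ v ∈ linSys n p, w = v / σ},
      ∃ h ∈ Algebra.adjoin ℂ {w | ∃ v ∈ linSys n p, w = v / σ},
        h ≠ 0 ∧ h⁻¹ ∈ loc (t - cst a) (y - cst b) ∧ f = g / h := by
  classical
  let δ : Fin 4 → Bool := fun i => decide (a = p (i, 0))
  have hδ := num_le δ
  have hn : n * (0 + num δ) ≤ n * 4 := Nat.mul_le_mul_left _ (by omega)
  have hn' : n * (0 + 1 + num δ) ≤ n * 5 := Nat.mul_le_mul_left _ (by omega)
  have h0 : gen p δ 0 0 ∈ linSys n p := gen_mem p δ (by omega) (by omega)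
  refine emb_of_gen δ (t_mem_aff a b) (y_mem_aff a b) (mul_sub_cst_mem h0 ?_ a)
    (mul_sub_cst_mem h0 ?_ b) fun i e => ?_
  · rw [gen_mul_t]
    exact gen_mem p δ (by omega) (by omega)
  · rw [gen_mul_y]
    exact gen_mem p δ (by omega) (by omega)
  · rw [div_eq_mul_inv]
    refine (loc _ _).mul_mem (lf_mem (t_mem_aff a b) (y_mem_aff a b) p i e) ?_
    by_cases hi : a = p (i, 0)
    · have hb : b ≠ p (i, 1) := fun hb => h i (by rw [hi, hb])
      have e1 : lf p i (δ i) = y - cst b + cst (b - p (i, 1)) := by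
        simp only [lf, δ, hi, decide_true, if_true, cst, map_sub]
        ring
      rw [e1]
      exact inv_right_add_cst_mem (sub_ne_zero.2 hb)
    · have e1 : lf p i (δ i) = t - cst a + cst (a - p (i, 0)) := by
        simp only [lf, δ, hi, decide_false, cst, map_sub]
        simp
      rw [e1]
      exact inv_left_add_cst_mem (sub_ne_zero.2 hi)

/-- `(1 - c x)⁻¹` is regular if `x` is a local coordinate -/
theorem inv_one_sub_left {u v : K} (c : ℂ) : (1 - cst c * u)⁻¹ ∈ loc u v := by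
  have := inv_mem_loc (u := u) (v := v) (1 - C c * X 0) (by simp)
  simpa using this

theorem inv_one_sub_right {u v : K} (c : ℂ) : (1 - cst c * v)⁻¹ ∈ loc u v := by
  have := inv_mem_loc (u := u) (v := v) (1 - C c * X 1) (by simp)
  simpa using this

theorem emb_yinf {n : ℕ} {p : Fin 4 × Fin 2 → ℂ} (a : ℂ) :
    ∃ σ ∈ linSys n p, σ ≠ 0 ∧ (∀ v ∈ linSys n p, v / σ ∈ loc (t - cst a) y⁻¹) ∧
    ∀ f ∈ loc (t - cst a) y⁻¹, ∃ g ∈ Algebra.adjoin ℂ {w | ∃ v ∈ linSys n p, w = v / σ},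
      ∃ h ∈ Algebra.adjoin ℂ {w | ∃ v ∈ linSys n p, w = v / σ},
        h ≠ 0 ∧ h⁻¹ ∈ loc (t - cst a) y⁻¹ ∧ f = g / h := by
  have hy := y_ne_zero
  have h0 : gen p (fun _ => true) 0 1 ∈ linSys n p :=
    gen_mem p _ (by rw [num_true]) (by rw [num_true]; omega)
  have ht : t ∈ loc (t - cst a) y⁻¹ := by
    have := (loc (t - cst a) y⁻¹).add_mem (left_mem_loc _ _) (cst_mem _ a)
    simpa using this
  refine emb_of h0 (gen_ne_zero p _ 0 1) (mul_sub_cst_mem h0 ?_ a) ?_
    fun v hv => div_mem_of_gen (fun ε c d h1 h2 => ?_) hv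
  · rw [gen_mul_t]
    exact gen_mem p _ (by rw [num_true]) (by rw [num_true]; omega)
  · have e1 : gen p (fun _ => true) 0 1 * y⁻¹ = gen p (fun _ => true) 0 0 := by
      rw [gen_eq, gen_eq]; field_simp
    rw [e1]
    exact gen_mem p _ (by rw [num_true]; omega) (by rw [num_true]; omega)
  · set R := loc (t - cst a) y⁻¹ with hR
    have hyi : y⁻¹ ∈ R := right_mem_loc _ _
    let e : Fin 4 → K := fun i => if ε i then 1 else (t - cst (p (i, 0))) *
      (1 - cst (p (i, 1)) * y⁻¹)⁻¹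
    have he : ∀ i, e i ∈ R := by
      intro i
      change (if ε i then 1 else (t - cst (p (i, 0))) * (1 - cst (p (i, 1)) * y⁻¹)⁻¹) ∈ R
      split_ifs
      · exact R.one_mem
      · exact R.mul_mem (R.sub_mem ht (cst_mem R _)) (inv_one_sub_right _)
    have e1 : ∀ i, lf p i (ε i) / lf p i true = e i * (if ε i then 1 else y⁻¹) := by
      intro i
      have h3 : y - cst (p (i, 1)) ≠ 0 := y_sub_ne_zero _
      have h4 : 1 - cst (p (i, 1)) * y⁻¹ = (y - cst (p (i, 1))) * y⁻¹ := by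
        field_simp
      by_cases hi : ε i = true
      · simp only [lf, e, hi, if_true, mul_one]
        exact div_self h3
      · simp only [lf, e, hi, if_true, h4]
        simp only [if_false, Bool.false_eq_true]
        field_simp
    have e2 : gen p ε c d / gen p (fun _ => true) 0 1 =
        t ^ c * (y⁻¹) ^ (5 - d - num ε) * ∏ i, e i := by
      rw [gen_eq, gen_eq, pow_zero, one_mul, pow_one, mul_div_mul_comm,
        ← Finset.prod_div_distrib, Finset.prod_congr rfl (fun i _ => e1 i),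
        Finset.prod_mul_distrib, prod_bool, one_pow, one_mul]
      have h5 : (y⁻¹) ^ (4 - num ε) * y ^ d * y⁻¹ = (y⁻¹) ^ (5 - d - num ε) := by
        have h6 : 4 - num ε + 1 = (5 - d - num ε) + d := by
          have := num_le ε
          omega
        rw [mul_assoc, mul_comm (y ^ d), ← mul_assoc, ← pow_succ, h6, pow_add, mul_assoc,
          ← mul_pow, inv_mul_cancel₀ hy, one_pow, mul_one]
      rw [← h5]
      field_simp
    rw [e2]
    exact R.mul_mem (R.mul_mem (R.pow_mem ht _) (R.pow_mem hyi _))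
      (Subalgebra.prod_mem _ fun i _ => he i)

theorem emb_inf_zero {n : ℕ} {p : Fin 4 × Fin 2 → ℂ} (c : ℂ) :
    ∃ σ ∈ linSys n p, σ ≠ 0 ∧ (∀ v ∈ linSys n p, v / σ ∈ loc t⁻¹ (y / t ^ n - cst c)) ∧
    ∀ f ∈ loc t⁻¹ (y / t ^ n - cst c),
      ∃ g ∈ Algebra.adjoin ℂ {w | ∃ v ∈ linSys n p, w = v / σ},
      ∃ h ∈ Algebra.adjoin ℂ {w | ∃ v ∈ linSys n p, w = v / σ},
        h ≠ 0 ∧ h⁻¹ ∈ loc t⁻¹ (y / t ^ n - cst c) ∧ f = g / h := by
  have ht := t_ne_zero
  have h0 : gen p (fun _ => false) (5 * n + 10) 0 ∈ linSys n p :=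
    gen_mem p _ (by rw [num_false]; omega) (by rw [num_false]; omega)
  refine emb_of h0 (gen_ne_zero p _ _ 0) ?_ (mul_sub_cst_mem h0 ?_ c)
    fun v hv => div_mem_of_gen (fun ε a b h1 h2 => ?_) hv
  · have e1 : gen p (fun _ => false) (5 * n + 10) 0 * t⁻¹ =
        gen p (fun _ => false) (5 * n + 9) 0 := by
      rw [gen_eq, gen_eq, pow_succ t (5 * n + 9)]; field_simp
    rw [e1]
    exact gen_mem p _ (by rw [num_false]; omega) (by rw [num_false]; omega)
  · have e1 : gen p (fun _ => false) (5 * n + 10) 0 * (y / t ^ n) =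
        gen p (fun _ => false) (4 * n + 10) 1 := by
      have : 5 * n + 10 = (4 * n + 10) + n := by ring
      rw [gen_eq, gen_eq, this, pow_add t (4 * n + 10) n]; field_simp
    rw [e1]
    exact gen_mem p _ (by rw [num_false]; omega) (by rw [num_false]; omega)
  · set R := loc t⁻¹ (y / t ^ n - cst c) with hR
    have hti : t⁻¹ ∈ R := left_mem_loc _ _
    have hz : y / t ^ n ∈ R := by
      have := R.add_mem (right_mem_loc _ _) (cst_mem R c)
      simpa using this
    let e : Fin 4 → K := fun i => if ε i then (y / t ^ n - cst (p (i, 1)) * t⁻¹ ^ n) *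
      (1 - cst (p (i, 0)) * t⁻¹)⁻¹ else 1
    have he : ∀ i, e i ∈ R := by
      intro i
      change (if ε i then (y / t ^ n - cst (p (i, 1)) * t⁻¹ ^ n) *
        (1 - cst (p (i, 0)) * t⁻¹)⁻¹ else 1) ∈ R
      split_ifs
      · exact R.mul_mem (R.sub_mem hz (R.mul_mem (cst_mem R _) (R.pow_mem hti _)))
          (inv_one_sub_left _)
      · exact R.one_mem
    have e1 : ∀ i, lf p i (ε i) / lf p i false = e i * (if ε i then t ^ n * t⁻¹ else 1) := by
      intro i
      have h3 : t - cst (p (i, 0)) ≠ 0 := t_sub_ne_zero _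
      have h4 : 1 - cst (p (i, 0)) * t⁻¹ = (t - cst (p (i, 0))) * t⁻¹ := by
        field_simp
      by_cases hi : ε i = true
      · simp only [lf, e, hi, if_true, h4, inv_pow]
        simp only [if_false, Bool.false_eq_true]
        field_simp
      · simp only [lf, e, hi]
        simp only [if_false, Bool.false_eq_true, mul_one]
        exact div_self h3
    obtain ⟨k, hk⟩ : ∃ k, a + n * (b + num ε) + k = 5 * n + 10 + num ε := by
      have := num_le ε
      exact ⟨5 * n + 10 + num ε - (a + n * (b + num ε)), by omega⟩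
    have e2 : gen p ε a b / gen p (fun _ => false) (5 * n + 10) 0 =
        (t⁻¹) ^ k * (y / t ^ n) ^ b * ∏ i, e i := by
      rw [gen_eq, gen_eq, pow_zero, mul_one, mul_div_mul_comm,
        ← Finset.prod_div_distrib, Finset.prod_congr rfl (fun i _ => e1 i),
        Finset.prod_mul_distrib, prod_bool, one_pow, mul_one]
      have h5 : t ^ a * (t ^ n) ^ b * (t ^ n) ^ num ε * t ^ k = t ^ (5 * n + 10) * t ^ num ε := by
        rw [← pow_mul, ← pow_mul, ← pow_add, ← pow_add, ← pow_add, ← pow_add, ← hk]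
        congr 1
        ring
      have h6 : t ^ a * y ^ b / t ^ (5 * n + 10) * (t ^ n * t⁻¹) ^ num ε =
          (t⁻¹) ^ k * (y / t ^ n) ^ b := by
        rw [mul_pow, inv_pow, inv_pow, div_pow]
        have hk0 : t ^ k ≠ 0 := pow_ne_zero _ ht
        have he0 : t ^ num ε ≠ 0 := pow_ne_zero _ ht
        have hn0 : t ^ (5 * n + 10) ≠ 0 := pow_ne_zero _ ht
        have hb0 : (t ^ n) ^ b ≠ 0 := pow_ne_zero _ (pow_ne_zero _ ht)
        rw [div_mul_eq_mul_div, ← div_eq_mul_inv, mul_div_assoc', div_div, inv_mul_eq_div, div_div,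
          div_eq_div_iff (mul_ne_zero he0 hn0) (mul_ne_zero hb0 hk0)]
        linear_combination y ^ b * h5
      rw [← h6]
      ring
    rw [e2]
    exact R.mul_mem (R.mul_mem (R.pow_mem hti _) (R.pow_mem hz _))
      (Subalgebra.prod_mem _ fun i _ => he i)

theorem emb_inf_inf {n : ℕ} {p : Fin 4 × Fin 2 → ℂ} :
    ∃ σ ∈ linSys n p, σ ≠ 0 ∧ (∀ v ∈ linSys n p, v / σ ∈ loc t⁻¹ (t ^ n / y)) ∧
    ∀ f ∈ loc t⁻¹ (t ^ n / y),
      ∃ g ∈ Algebra.adjoin ℂ {w | ∃ v ∈ linSys n p, w = v / σ},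
      ∃ h ∈ Algebra.adjoin ℂ {w | ∃ v ∈ linSys n p, w = v / σ},
        h ≠ 0 ∧ h⁻¹ ∈ loc t⁻¹ (t ^ n / y) ∧ f = g / h := by
  have ht := t_ne_zero
  have hy := y_ne_zero
  have h0 : gen p (fun _ => false) 10 5 ∈ linSys n p :=
    gen_mem p _ (by rw [num_false]) (by rw [num_false]; omega)
  refine emb_of h0 (gen_ne_zero p _ _ _) ?_ ?_
    fun v hv => div_mem_of_gen (fun ε a b h1 h2 => ?_) hv
  · have e1 : gen p (fun _ => false) 10 5 * t⁻¹ = gen p (fun _ => false) 9 5 := by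
      rw [gen_eq, gen_eq]; field_simp
    rw [e1]
    exact gen_mem p _ (by rw [num_false]) (by rw [num_false]; omega)
  · have e1 : gen p (fun _ => false) 10 5 * (t ^ n / y) =
        gen p (fun _ => false) (n + 10) 4 := by
      rw [gen_eq, gen_eq, pow_add t n 10]; field_simp
    rw [e1]
    exact gen_mem p _ (by rw [num_false]; omega) (by rw [num_false]; omega)
  · set R := loc t⁻¹ (t ^ n / y) with hR
    have hti : t⁻¹ ∈ R := left_mem_loc _ _
    have hz : t ^ n / y ∈ R := right_mem_loc _ _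
    have hyi : y⁻¹ ∈ R := by
      have h3 : y⁻¹ = t⁻¹ ^ n * (t ^ n / y) := by
        rw [inv_pow]; field_simp
      rw [h3]
      exact R.mul_mem (R.pow_mem hti _) hz
    let e : Fin 4 → K := fun i => if ε i then (1 - cst (p (i, 1)) * y⁻¹) *
      (1 - cst (p (i, 0)) * t⁻¹)⁻¹ else 1
    have he : ∀ i, e i ∈ R := by
      intro i
      change (if ε i then (1 - cst (p (i, 1)) * y⁻¹) *
        (1 - cst (p (i, 0)) * t⁻¹)⁻¹ else 1) ∈ R
      split_ifs
      · exact R.mul_mem (R.sub_mem R.one_mem (R.mul_mem (cst_mem R _) hyi)) (inv_one_sub_left _)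
      · exact R.one_mem
    have e1 : ∀ i, lf p i (ε i) / lf p i false = e i * (if ε i then y * t⁻¹ else 1) := by
      intro i
      have h3 : t - cst (p (i, 0)) ≠ 0 := t_sub_ne_zero _
      have h4 : 1 - cst (p (i, 0)) * t⁻¹ = (t - cst (p (i, 0))) * t⁻¹ := by
        field_simp
      by_cases hi : ε i = true
      · simp only [lf, e, hi, if_true, h4]
        simp only [if_false, Bool.false_eq_true]
        field_simp
      · simp only [lf, e, hi]
        simp only [if_false, Bool.false_eq_true, mul_one]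
        exact div_self h3
    obtain ⟨j, hj⟩ : ∃ j, b + num ε + j = 5 := ⟨5 - (b + num ε), by omega⟩
    obtain ⟨k, hk⟩ : ∃ k, a + k = 10 + num ε + n * j := by
      have h7 : n * (b + num ε) + n * j = 5 * n := by
        rw [← mul_add, hj]; ring
      have := num_le ε
      exact ⟨10 + num ε + n * j - a, by omega⟩
    have e2 : gen p ε a b / gen p (fun _ => false) 10 5 =
        (t⁻¹) ^ k * (t ^ n / y) ^ j * ∏ i, e i := by
      rw [gen_eq, gen_eq, mul_div_mul_comm,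
        ← Finset.prod_div_distrib, Finset.prod_congr rfl (fun i _ => e1 i),
        Finset.prod_mul_distrib, prod_bool, one_pow, mul_one]
      have h5 : t ^ a * t ^ k = t ^ 10 * t ^ num ε * (t ^ n) ^ j := by
        rw [← pow_mul, ← pow_add, ← pow_add, ← pow_add, hk]
      have h5' : y ^ b * y ^ num ε * y ^ j = y ^ 5 := by
        rw [← pow_add, ← pow_add, hj]
      have h6 : t ^ a * y ^ b / (t ^ 10 * y ^ 5) * (y * t⁻¹) ^ num ε =
          (t⁻¹) ^ k * (t ^ n / y) ^ j := by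
        rw [mul_pow, inv_pow, inv_pow, div_pow]
        have hk0 : t ^ k ≠ 0 := pow_ne_zero _ ht
        have he0 : t ^ num ε ≠ 0 := pow_ne_zero _ ht
        have hn0 : t ^ 10 * y ^ 5 ≠ 0 := mul_ne_zero (pow_ne_zero _ ht) (pow_ne_zero _ hy)
        have hb0 : y ^ j ≠ 0 := pow_ne_zero _ hy
        rw [div_mul_eq_mul_div, ← div_eq_mul_inv, mul_div_assoc', div_div, inv_mul_eq_div, div_div,
          div_eq_div_iff (mul_ne_zero he0 hn0) (mul_ne_zero hb0 hk0)]
        linear_combination (y ^ b * y ^ num ε * y ^ j) * h5 +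
          (t ^ 10 * t ^ num ε * (t ^ n) ^ j) * h5'
      rw [← h6]
      ring
    rw [e2]
    exact R.mul_mem (R.mul_mem (R.pow_mem hti _) (R.pow_mem hz _))
      (Subalgebra.prod_mem _ fun i _ => he i)

theorem emb_exc {n : ℕ} {p : Fin 4 × Fin 2 → ℂ} (hp : Dist p) {i : Fin 4} {g : K}
    {R : Subalgebra ℂ K} (hE : Exc p i g R) :
    ∃ σ ∈ linSys n p, σ ≠ 0 ∧ (∀ v ∈ linSys n p, v / σ ∈ R) ∧
    ∀ f ∈ R, ∃ g ∈ Algebra.adjoin ℂ {w | ∃ v ∈ linSys n p, w = v / σ},
      ∃ h ∈ Algebra.adjoin ℂ {w | ∃ v ∈ linSys n p, w = v / σ},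
        h ≠ 0 ∧ h⁻¹ ∈ R ∧ f = g / h := by
  classical
  have ht0 : t - cst (p (i, 0)) ≠ 0 := t_sub_ne_zero _
  have hy0 : y - cst (p (i, 1)) ≠ 0 := y_sub_ne_zero _
  let δ : Fin 4 → Bool := fun j => decide (j = i)
  have hδ : num δ = 1 := num_single i
  have hδi : δ i = true := by simp [δ]
  have hδj : ∀ j, j ≠ i → δ j = false := fun j hj => by simp [δ, hj]
  have hf0 : gen p (fun _ => false) 0 0 ∈ linSys n p :=
    gen_mem p _ (by rw [num_false]; omega) (by rw [num_false]; omega)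
  have hd0 : gen p δ 0 0 ∈ linSys n p :=
    gen_mem p _ (by rw [hδ]; omega) (by rw [hδ]; omega)
  have hfd : gen p (fun _ => false) 0 0 * (y - cst (p (i, 1))) =
      gen p δ 0 0 * (t - cst (p (i, 0))) := by
    rw [gen_eq, gen_eq, ← Finset.mul_prod_erase _ _ (Finset.mem_univ i),
      ← Finset.mul_prod_erase _ (fun j => lf p j (δ j)) (Finset.mem_univ i)]
    have h1 : ∏ j ∈ Finset.univ.erase i, lf p j (δ j) = ∏ j ∈ Finset.univ.erase i, lf p j false :=
      Finset.prod_congr rfl fun j hj => by rw [hδj j (Finset.ne_of_mem_erase hj)]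
    rw [h1]
    simp only [hδi]
    simp only [lf, if_true, if_false, Bool.false_eq_true]
    ring
  have ht := hE.t_mem
  have hy := hE.y_mem
  have hdist : ∀ j, j ≠ i → p (i, 0) - p (j, 0) ≠ 0 := fun j hj h => hj (hp (sub_eq_zero.1 h)).symm
  rcases hE with ⟨-, c, rfl⟩ | ⟨-, rfl⟩
  · refine emb_of_gen (fun _ => false) ht hy (mul_sub_cst_mem hf0 ?_ _)
      (mul_sub_cst_mem hf0 ?_ c) fun j e => ?_
    · rw [gen_mul_t]
      exact gen_mem p _ (by rw [num_false]; omega) (by rw [num_false]; omega)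
    · rw [← mul_div_assoc, hfd, mul_div_assoc, div_self ht0, mul_one]
      exact hd0
    · set R := loc (t - cst (p (i, 0))) ((y - cst (p (i, 1))) / (t - cst (p (i, 0))) - cst c)
        with hR
      have hz : (y - cst (p (i, 1))) / (t - cst (p (i, 0))) ∈ R := by
        have := R.add_mem (right_mem_loc _ _) (cst_mem R c)
        simpa using this
      by_cases hj : j = i
      · subst hj
        cases e
        · simp only [lf, if_false, Bool.false_eq_true]
          rw [div_self ht0]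
          exact R.one_mem
        · simp only [lf, if_false, Bool.false_eq_true, if_true]
          exact hz
      · rw [div_eq_mul_inv]
        refine R.mul_mem (lf_mem ht hy p j e) ?_
        have e1 : lf p j false = t - cst (p (i, 0)) + cst (p (i, 0) - p (j, 0)) := by
          simp only [lf, if_false, Bool.false_eq_true, cst, map_sub]
          ring
        rw [e1]
        exact inv_left_add_cst_mem (hdist j hj)
  · refine emb_of_gen δ ht hy ?_ (mul_sub_cst_mem hd0 ?_ _) fun j e => ?_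
    · rw [← mul_div_assoc, ← hfd, mul_div_assoc, div_self hy0, mul_one]
      exact hf0
    · rw [gen_mul_y]
      exact gen_mem p _ (by rw [hδ]; omega) (by rw [hδ]; omega)
    · set R := loc ((t - cst (p (i, 0))) / (y - cst (p (i, 1)))) (y - cst (p (i, 1))) with hR
      have hz : (t - cst (p (i, 0))) / (y - cst (p (i, 1))) ∈ R := left_mem_loc _ _
      by_cases hj : j = i
      · subst hj
        rw [hδi]
        cases e
        · simp only [lf, if_false, Bool.false_eq_true, if_true]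
          exact hz
        · simp only [lf, if_true]
          rw [div_self hy0]
          exact R.one_mem
      · rw [hδj j hj, div_eq_mul_inv]
        refine R.mul_mem (lf_mem ht hy p j e) ?_
        have h2 := inv_mem_loc (u := (t - cst (p (i, 0))) / (y - cst (p (i, 1))))
          (v := y - cst (p (i, 1))) (X 0 * X 1 + C (p (i, 0) - p (j, 0)))
          (by simpa using hdist j hj)
        have e1 : aeval ![(t - cst (p (i, 0))) / (y - cst (p (i, 1))), y - cst (p (i, 1))]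
            (X 0 * X 1 + C (p (i, 0) - p (j, 0)) : MvPolynomial (Fin 2) ℂ) = lf p j false := by
          simp only [map_add, map_mul, aeval_X, aeval_C, lf, if_false, Bool.false_eq_true, cst,
            map_sub, Matrix.cons_val_zero, Matrix.cons_val_one]
          rw [div_mul_cancel₀ _ hy0]
          ring
        rw [e1] at h2
        exact h2

theorem veryAmple_linSys (n : ℕ) (p : Fin 4 × Fin 2 → ℂ) (hp : Dist p) :
    VeryAmple (blownUp n p) (linSys n p) where
  fg := linSys_fg n p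
  emb R hR := by
    rcases mem_blownUp_cases hR with ⟨a, b, rfl, h⟩ | ⟨a, rfl⟩ | (⟨b, rfl⟩ | rfl) | ⟨i, g, hE⟩
    · exact emb_aff h
    · exact emb_yinf a
    · exact emb_inf_zero b
    · exact emb_inf_inf
    · exact emb_exc hp hE

end

end BlowHirz
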