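import Pool.Agent.BlowHirz.Embed

/-!
# Module GEN: stalks at general points
-/

set_option autoImplicit false

namespace BlowHirz

open MvPolynomial

noncomputable section

theorem mul_mem_H {A : Type} [CommRing A] [Algebra K A] {R : Subalgebra ℂ K} {x θ : A} {m m' : ℕ}
    {z z' : A} (hz : z ∈ H R x θ m) (hz' : z' ∈ H R x θ m') : z * z' ∈ H R x θ (m + m') := by
  have := Submodule.mul_mem_mul hz hz'
  rw [H, H, Submodule.span_mul_span] at this
  refine Submodule.span_mono ?_ this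
  rintro _ ⟨_, ⟨j, k, hjk, rfl⟩, _, ⟨j', k', hjk', rfl⟩, rfl⟩
  refine ⟨j + j', k + k', by omega, ?_⟩
  simp only [pow_add]
  ring

theorem one_mem_H {A : Type} [CommRing A] [Algebra K A] (R : Subalgebra ℂ K) (x θ : A) :
    (1 : A) ∈ H R x θ 0 :=
  Submodule.subset_span ⟨0, 0, rfl, by simp⟩

theorem pow_mem_H {A : Type} [CommRing A] [Algebra K A] {R : Subalgebra ℂ K} {x θ : A} {m : ℕ}
    {z : A} (hz : z ∈ H R x θ m) (k : ℕ) : z ^ k ∈ H R x θ (m * k) := by
  induction k with
  | zero => rw [pow_zero, mul_zero]; exact one_mem_H R x θ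
  | succ k ih => rw [pow_succ, mul_add, mul_one]; exact mul_mem_H ih hz

theorem lin_mem_H {A : Type} [CommRing A] [Algebra K A] {R : Subalgebra ℂ K} (x θ : A) {α β : K}
    (hα : α ∈ R) (hβ : β ∈ R) : α • x + β • θ ∈ H R x θ 1 := by
  refine Submodule.add_mem _ ?_ ?_
  · exact Submodule.smul_mem _ (⟨α, hα⟩ : R) (Submodule.subset_span ⟨1, 0, rfl, by simp⟩)
  · exact Submodule.smul_mem _ (⟨β, hβ⟩ : R) (Submodule.subset_span ⟨0, 1, rfl, by simp⟩)

theorem H_le {A : Type} [CommRing A] [Algebra K A] {R : Subalgebra ℂ K} {x θ x' θ' : A}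
    (hx : x ∈ H R x' θ' 1) (hθ : θ ∈ H R x' θ' 1) (m : ℕ) : H R x θ m ≤ H R x' θ' m := by
  refine Submodule.span_le.mpr ?_
  rintro _ ⟨j, k, rfl, rfl⟩
  have h1 := pow_mem_H hx j
  have h2 := pow_mem_H hθ k
  rw [one_mul] at h1 h2
  exact mul_mem_H h1 h2

theorem prod_mem_H {A : Type} [CommRing A] [Algebra K A] {R : Subalgebra ℂ K} {x θ : A} {m : ℕ}
    (z : Fin m → A) (hz : ∀ i, z i ∈ H R x θ 1) : ∏ i, z i ∈ H R x θ m := by
  induction m with
  | zero => simpa using one_mem_H R x θ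
  | succ m ih =>
    rw [Fin.prod_univ_castSucc]
    exact mul_mem_H (ih _ (fun i => hz _)) (hz _)

/-- at a point of the affine plane, `Sym^m T` has the basis of monomials in `∂_t, ∂_y` -/
theorem symStalk_aff_le (a b : ℂ) (m : ℕ) :
    symStalk (loc (t - cst a) (y - cst b)) m ≤
      H (loc (t - cst a) (y - cst b)) (ι (der 1 0)) (ι (der 0 1)) m := by
  refine Submodule.span_le.mpr ?_
  rintro _ ⟨D, hD, rfl⟩
  refine prod_mem_H _ (fun i => ?_)
  have h1 : D i t ∈ loc (t - cst a) (y - cst b) := hD i t (t_mem_aff a b)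
  have h2 : D i y ∈ loc (t - cst a) (y - cst b) := hD i y (y_mem_aff a b)
  have h3 : D i = (D i t) • der 1 0 + (D i y) • der 0 1 := by
    rw [smul_der, smul_der, add_der]
    simp only [mul_one, mul_zero, add_zero, zero_add]
    exact der_eq (D i)
  have h4 : ι (D i) = (D i t) • ι (der 1 0) + (D i y) • ι (der 0 1) := by
    rw [← map_smul, ← map_smul, ← map_add, ← h3]
  rw [h4]
  exact lin_mem_H _ _ h1 h2

/-- twisted sections -/
theorem smul_mem_globalSections {n : ℕ} {p : Fin 4 × Fin 2 → ℂ} {m k : ℕ} (hk : k ≤ 10) {z : S}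
    (h1 : ∀ R ∈ blownUp n p, t ∈ R → ¬ AtInf n R → z ∈ symStalk R m)
    (h2 : ∀ R ∈ blownUp n p, AtInf n R → (t ^ k)⁻¹ • z ∈ symStalk R m) :
    Qt p • z ∈ globalSections (blownUp n p) (linSys n p) m := by
  have hfin : ∀ R ∈ blownUp n p, t ∈ R → ¬ AtInf n R →
      Qt p • z ∈ twistStalk (linSys n p) R m := by
    intro R hR ht hn
    refine Submodule.subset_span ⟨Qt p, ?_, z, h1 R hR ht hn, rfl⟩
    have := pow_mul_Qt_mem n p (a := 0) (by norm_num)
    simpa using this
  intro R hR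
  by_cases hinf : AtInf n R
  · refine Submodule.subset_span ⟨t ^ k * Qt p, pow_mul_Qt_mem n p hk, _, h2 R hR hinf, ?_⟩
    rw [smul_smul]
    congr 1
    have := t_ne_zero
    field_simp
  · rcases mem_blownUp_cases hR with ⟨a, b, rfl, _⟩ | ⟨a, rfl⟩ | hinf' | ⟨i, g, hE⟩
    · exact hfin _ hR (t_mem_aff a b) hinf
    · refine hfin _ hR ?_ hinf
      have := (loc (t - cst a) y⁻¹).add_mem (left_mem_loc _ _) (cst_mem _ a)
      rwa [sub_add_cancel] at this
    · exact absurd hinf' hinf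
    · exact hfin _ hR hE.t_mem hinf

theorem Qt_ne_zero (p : Fin 4 × Fin 2 → ℂ) : Qt p ≠ 0 :=
  Finset.prod_ne_zero_iff.mpr fun _ _ => t_sub_ne_zero _

theorem one_mem_globalSections_zero (n : ℕ) (p : Fin 4 × Fin 2 → ℂ) :
    Qt p • (1 : S) ∈ globalSections (blownUp n p) (linSys n p) 0 := by
  refine smul_mem_globalSections (k := 0) (by norm_num) (fun R _ _ _ => one_mem_symStalk R) ?_
  intro R _ _
  rw [pow_zero, inv_one, one_smul]
  exact one_mem_symStalk R

/-- multiplication by a section of `Sym^j T` -/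
theorem mul_mem_globalSections {n : ℕ} {p : Fin 4 × Fin 2 → ℂ} {m j : ℕ} {z w : S}
    (hz : z ∈ globalSections (blownUp n p) (linSys n p) m)
    (hw : ∀ R ∈ blownUp n p, w ∈ symStalk R j) :
    w * z ∈ globalSections (blownUp n p) (linSys n p) (j + m) := by
  intro R hR
  have hz' := hz R hR
  have hw' := hw R hR
  clear hz
  rw [twistStalk] at hz'
  induction hz' using Submodule.span_induction with
  | mem z h =>
    obtain ⟨v, hv, w', hw'', rfl⟩ := h
    refine Submodule.subset_span ⟨v, hv, w * w', mul_mem_symStalk hw' hw'', ?_⟩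
    rw [mul_smul_comm]
  | zero => rw [mul_zero]; exact Submodule.zero_mem _
  | add a b _ _ ha hb => rw [mul_add]; exact Submodule.add_mem _ ha hb
  | smul c a _ ha => rw [mul_smul_comm]; exact Submodule.smul_mem _ c ha

theorem mul_mem_span_globalSections {n : ℕ} {p : Fin 4 × Fin 2 → ℂ} {m j : ℕ} {z w : S}
    {R : Subalgebra ℂ K}
    (hz : z ∈ Submodule.span R (globalSections (blownUp n p) (linSys n p) m))
    (hw : ∀ R ∈ blownUp n p, w ∈ symStalk R j) :
    w * z ∈ Submodule.span R (globalSections (blownUp n p) (linSys n p) (j + m)) := by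
  induction hz using Submodule.span_induction with
  | mem z h => exact Submodule.subset_span (mul_mem_globalSections h hw)
  | zero => rw [mul_zero]; exact Submodule.zero_mem _
  | add a b _ _ ha hb => rw [mul_add]; exact Submodule.add_mem _ ha hb
  | smul c a _ ha => rw [mul_smul_comm]; exact Submodule.smul_mem _ c ha

theorem pseff_of {n : ℕ} {p : Fin 4 × Fin 2 → ℂ} (hp : Dist p) (f : MvPolynomial (Fin 2) ℂ)
    (hf : f ≠ 0)
    (h : ∀ a b : ℂ, eval ![a, b] f ≠ 0 → (∀ i, a ≠ p (i, 0)) ∧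
      ∀ m, 1 ≤ m → H (loc (t - cst a) (y - cst b)) (ι (der 1 0)) (ι (der 0 1)) m ≤
        Submodule.span (loc (t - cst a) (y - cst b)) (globalSections (blownUp n p) (linSys n p) m)) :
    PseudoEffectiveTangent (blownUp n p) := by
  refine ⟨linSys n p, veryAmple_linSys n p hp, f, hf, ?_⟩
  intro a b hab
  obtain ⟨h1, h2⟩ := h a b hab
  refine ⟨mem_blownUp_aff h1, fun m hm => ?_⟩
  refine le_trans ?_ (h2 m hm)
  refine le_trans ?_ (symStalk_aff_le a b m)
  refine Submodule.span_le.mpr ?_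
  rintro _ ⟨v, hv, w, hw, rfl⟩
  exact smul_mem_symStalk hw (A2_le (t_mem_aff a b) (y_mem_aff a b) (linSys_le_A2 n p hv))

end

end BlowHirz
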