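import Pool.Agent.BlowHirz.Gen

/-!
# Module SMALL: the cases `n = 0, 1, 2`

Vector fields (all lift to `X` with a zero along `E_i` for the `i` in their index set, as they are
radial at `p_i` there, and with at most a simple pole along the other `E_i`):
* `n = 0`: `D_{ij} = (t - t_i)(t - t_j) ∂_t + κ (y - y_i)(y - y_j) ∂_y`,
  `κ = (t_i - t_j)/(y_i - y_j)`;
* `n = 2`: `D_{ij} = w ∂_t + (w' (y - h) + w δ) ∂_y`, `w = (t - t_i)(t - t_j)`,
  `h = y_i + δ (t - t_i)`, `δ = (y_j - y_i)/(t_j - t_i)`;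
* `n = 1`: `D_i = (t - t_i) ∂_t + (y - y_i) ∂_y` and
  `D_{jkl} = w ∂_t + (F²/a + w' F + w h') ∂_y`, `w = (t - t_j)(t - t_k)(t - t_l)`, `F = y - h`,
  `h` the interpolation polynomial of degree 2, `a ≠ 0` its leading coefficient.  At `t = ∞`
  the first vanishes, the second has a simple pole.
Sections of `Sym² T_X`: `D_{12} D_{34}`, `D_{13} D_{24}` (`n = 0, 2`) and `D_1 D_{234}`, `D_2 D_{134}`
(`n = 1`).  Use `mem_blownUp_cases`, `tangent_loc`, `Exc.tangent_of_radial`,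
`Exc.tangent_of_regular`.

`small_main`: `f = ∏ (t - t_i) * ∏ det`; by induction on `m ≥ 1`:
`H R (ι ∂_t) (ι ∂_y) m ≤ span R (globalSections ..)` (`R` the local ring of a point of the plane with
`f ≠ 0`). `m = 1, 2`: `Qt • (Qt • ∂)`, `Qt • (Qt • ∂)(Qt • ∂')` are global
(`smul_mem_globalSections` with `k = 4, 8`), `m ≥ 3`: `H_le_of_coprime`.
-/

set_option autoImplicit false

namespace BlowHirz

open MvPolynomial

noncomputable section

/-- two coprime decomposable quadratic forms generate everything in degree `≥ 3`.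
Proof: with `a, b, c, d` the four linear forms and `H` in terms of the basis `a, c` (determinant
a unit of `R`): `b = β a + β' c`, `d = δ a + δ' c` with `β, δ', β δ' - β' δ` units;
`δ' (a b c) - β' (a c d) = (β δ' - β' δ) a² c`, `β (a c d) - δ (a b c) = (β δ' - β' δ) a c²`,
`β a³ = a (a b) - β' a² c`, `δ' c³ = c (c d) - δ a c²`. -/
theorem H_le_of_coprime {A : Type} [CommRing A] [Algebra K A] {R : Subalgebra ℂ K} (x θ : A)
    (α β : Fin 4 → K) (hα : ∀ i, α i ∈ R) (hβ : ∀ i, β i ∈ R)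
    (hdet : ∀ i j, (i = 0 ∨ i = 1) → (j = 2 ∨ j = 3) → (α i * β j - α j * β i)⁻¹ ∈ R ∧
      α i * β j - α j * β i ≠ 0)
    (M : Submodule R A) (m : ℕ)
    (h1 : ∀ z ∈ H R x θ (m + 1), (α 0 • x + β 0 • θ) * (α 1 • x + β 1 • θ) * z ∈ M)
    (h2 : ∀ z ∈ H R x θ (m + 1), (α 2 • x + β 2 • θ) * (α 3 • x + β 3 • θ) * z ∈ M) :
    H R x θ (m + 3) ≤ M := by
  sorry

theorem small_main {n : ℕ} {p : Fin 4 × Fin 2 → ℂ} (hp : Dist p)
    (α β : Fin 4 → MvPolynomial (Fin 2) ℂ)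
    (hdet : ∀ i j, (i = 0 ∨ i = 1) → (j = 2 ∨ j = 3) → α i * β j - α j * β i ≠ 0)
    (h1 : ∀ R ∈ blownUp n p, ι (der (pol (α 0)) (pol (β 0))) * ι (der (pol (α 1)) (pol (β 1))) ∈
      symStalk R 2)
    (h2 : ∀ R ∈ blownUp n p, ι (der (pol (α 2)) (pol (β 2))) * ι (der (pol (α 3)) (pol (β 3))) ∈
      symStalk R 2) : PseudoEffectiveTangent (blownUp n p) := by
  sorry

theorem pseff_zero (p : Fin 4 × Fin 2 → ℂ) (hp : Dist p)
    (hp' : Function.Injective fun i : Fin 4 => p (i, 1)) :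
    PseudoEffectiveTangent (blownUp 0 p) := by
  sorry

/-- no three of the points are collinear -/
def NonCol (p : Fin 4 × Fin 2 → ℂ) : Prop :=
  ∀ i j k : Fin 4, i ≠ j → j ≠ k → i ≠ k →
    (p (j, 0) - p (i, 0)) * (p (k, 1) - p (i, 1)) - (p (k, 0) - p (i, 0)) * (p (j, 1) - p (i, 1)) ≠ 0

theorem pseff_one (p : Fin 4 × Fin 2 → ℂ) (hp : Dist p) (hp' : NonCol p) :
    PseudoEffectiveTangent (blownUp 1 p) := by
  sorry

theorem pseff_two (p : Fin 4 × Fin 2 → ℂ) (hp : Dist p) :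
    PseudoEffectiveTangent (blownUp 2 p) := by
  sorry

end

end BlowHirz
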