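import Pool.Agent.BlowHirz.Big
import Pool.Agent.BlowHirz.Small

set_option autoImplicit false

namespace BlowHirz

open MvPolynomial

theorem main (n : ℕ) : ∃ G : MvPolynomial (Fin 4 × Fin 2) ℂ, G ≠ 0 ∧
    ∀ p : Fin 4 × Fin 2 → ℂ, eval p G ≠ 0 →
      (Function.Injective fun i : Fin 4 => (p (i, 0), p (i, 1))) ∧
        PseudoEffectiveTangent (blownUp n p) := by
  sorry

end BlowHirz
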