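import Pool.Agent.BlowHirz.Basic

/-!
# Symmetric powers: stalks, homogeneous forms in two elements of `S`; cases for the points of the
surface; the points on the exceptional curves.
-/

set_option autoImplicit false

namespace BlowHirz

open MvPolynomial

noncomputable section

/-! ## stalks -/

theorem ι_mem_symStalk {R : Subalgebra ℂ K} {D : Derivation ℂ K K} (hD : D ∈ tangent R) :
    ι D ∈ symStalk R 1 := by
  refine Submodule.subset_span ⟨fun _ => D, fun _ => hD, ?_⟩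
  simp

theorem one_mem_symStalk (R : Subalgebra ℂ K) : (1 : S) ∈ symStalk R 0 := by
  refine Submodule.subset_span ⟨fun i => i.elim0, fun i => i.elim0, ?_⟩
  simp

theorem mul_mem_symStalk {R : Subalgebra ℂ K} {m m' : ℕ} {z z' : S} (hz : z ∈ symStalk R m)
    (hz' : z' ∈ symStalk R m') : z * z' ∈ symStalk R (m + m') := by
  have := Submodule.mul_mem_mul hz hz'
  rw [symStalk, symStalk, Submodule.span_mul_span] at this
  refine Submodule.span_mono ?_ this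
  rintro _ ⟨_, ⟨D, hD, rfl⟩, _, ⟨D', hD', rfl⟩, rfl⟩
  refine ⟨Fin.append D D', ?_, ?_⟩
  · intro i
    refine Fin.addCases (fun j => ?_) (fun j => ?_) i
    · rw [Fin.append_left]; exact hD j
    · rw [Fin.append_right]; exact hD' j
  · simp only [Fin.prod_univ_add, Fin.append_left, Fin.append_right]

theorem pow_mem_symStalk {R : Subalgebra ℂ K} {m : ℕ} {z : S} (hz : z ∈ symStalk R m) (k : ℕ) :
    z ^ k ∈ symStalk R (m * k) := by
  induction k with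
  | zero => rw [pow_zero, mul_zero]; exact one_mem_symStalk R
  | succ k ih => rw [pow_succ, mul_add, mul_one]; exact mul_mem_symStalk ih hz

theorem smul_mem_symStalk {R : Subalgebra ℂ K} {m : ℕ} {z : S} (hz : z ∈ symStalk R m) {c : K}
    (hc : c ∈ R) : c • z ∈ symStalk R m :=
  (symStalk R m).smul_mem ⟨c, hc⟩ hz

/-! ## homogeneous forms in two elements -/

/-- forms of degree `m` in `x, θ` with coefficients in `R` -/
def H {A : Type} [CommRing A] [Algebra K A] (R : Subalgebra ℂ K) (x θ : A) (m : ℕ) :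
    Submodule R A :=
  Submodule.span R {z | ∃ j k, j + k = m ∧ z = x ^ j * θ ^ k}

/-! ## points of the surface -/

/-- distinct first coordinates -/
def Dist (p : Fin 4 × Fin 2 → ℂ) : Prop := Function.Injective fun i : Fin 4 => p (i, 0)

/-- a point of the exceptional curve over `p i`; `g` is a local equation of the curve -/
def Exc (p : Fin 4 × Fin 2 → ℂ) (i : Fin 4) (g : K) (R : Subalgebra ℂ K) : Prop :=
  (g = t - cst (p (i, 0)) ∧ ∃ c : ℂ,
    R = loc (t - cst (p (i, 0))) ((y - cst (p (i, 1))) / (t - cst (p (i, 0))) - cst c)) ∨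
  (g = y - cst (p (i, 1)) ∧
    R = loc ((t - cst (p (i, 0))) / (y - cst (p (i, 1)))) (y - cst (p (i, 1))))

/-- points on the fibre `t = ∞` -/
def AtInf (n : ℕ) (R : Subalgebra ℂ K) : Prop :=
  (∃ b : ℂ, R = loc t⁻¹ (y / t ^ n - cst b)) ∨ R = loc t⁻¹ (t ^ n / y)

theorem mem_blownUp_cases {n : ℕ} {p : Fin 4 × Fin 2 → ℂ} {R : Subalgebra ℂ K}
    (hR : R ∈ blownUp n p) :
    (∃ a b : ℂ, R = loc (t - cst a) (y - cst b) ∧ ∀ i, (a, b) ≠ (p (i, 0), p (i, 1))) ∨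
    (∃ a : ℂ, R = loc (t - cst a) y⁻¹) ∨
    AtInf n R ∨
    (∃ i g, Exc p i g R) := by
  have key : ∀ i : Fin 4, ((∃ c : ℂ,
      R = loc (t - cst (p (i, 0))) ((y - cst (p (i, 1))) / (t - cst (p (i, 0))) - cst c)) ∨
      R = loc ((t - cst (p (i, 0))) / (y - cst (p (i, 1)))) (y - cst (p (i, 1)))) →
      ∃ i g, Exc p i g R := by
    rintro i (h | h)
    · exact ⟨i, _, Or.inl ⟨rfl, h⟩⟩
    · exact ⟨i, _, Or.inr ⟨rfl, h⟩⟩
  rcases hR with ⟨hR, h3⟩ | hR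
  swap
  · exact Or.inr (Or.inr (Or.inr (key 3 hR)))
  rcases hR with ⟨hR, h2⟩ | hR
  swap
  · exact Or.inr (Or.inr (Or.inr (key 2 hR)))
  rcases hR with ⟨hR, h1⟩ | hR
  swap
  · exact Or.inr (Or.inr (Or.inr (key 1 hR)))
  rcases hR with ⟨hR, h0⟩ | hR
  swap
  · exact Or.inr (Or.inr (Or.inr (key 0 hR)))
  rcases hR with ⟨a, b, rfl⟩ | hR
  · left
    refine ⟨a, b, rfl, ?_⟩
    intro i hi
    rw [Prod.mk.injEq] at hi
    obtain ⟨rfl, rfl⟩ := hi
    fin_cases i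
    · exact h0 rfl
    · exact h1 rfl
    · exact h2 rfl
    · exact h3 rfl
  · rcases hR with hR | hR
    · exact Or.inr (Or.inl hR)
    · exact Or.inr (Or.inr (Or.inl hR))

theorem mem_blownUp_aff {n : ℕ} {p : Fin 4 × Fin 2 → ℂ} {a b : ℂ} (h : ∀ i, a ≠ p (i, 0)) :
    loc (t - cst a) (y - cst b) ∈ blownUp n p := by
  refine Or.inl ⟨Or.inl ⟨Or.inl ⟨Or.inl ⟨Or.inl ⟨a, b, rfl⟩, ?_⟩, ?_⟩, ?_⟩, ?_⟩
  · exact loc_aff_ne (h 0)
  · exact loc_aff_ne (h 1)
  · exact loc_aff_ne (h 2)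
  · exact loc_aff_ne (h 3)

/-- polynomials in `t, y` -/
def A2 : Subalgebra ℂ K := (IsScalarTower.toAlgHom ℂ (MvPolynomial (Fin 2) ℂ) K).range

theorem pol_mem_A2 (q : MvPolynomial (Fin 2) ℂ) : pol q ∈ A2 := ⟨q, rfl⟩

theorem A2_le {R : Subalgebra ℂ K} (ht : t ∈ R) (hy : y ∈ R) : A2 ≤ R := by
  rintro _ ⟨q, rfl⟩
  exact pol_mem ht hy q

theorem t_mem_A2 : t ∈ A2 := ⟨X 0, rfl⟩

theorem y_mem_A2 : y ∈ A2 := ⟨X 1, rfl⟩

/-- the two regular parameters and their quotient -/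
structure ExcAux (p : Fin 4 × Fin 2 → ℂ) (i : Fin 4) (g h : K) (R : Subalgebra ℂ K) : Prop where
  gne : g ≠ 0
  gmem : g ∈ R
  hmem : h / g ∈ R
  tan : ∀ D : Derivation ℂ K K, D g ∈ R → D (h / g) ∈ R → D ∈ tangent R

theorem Exc.aux {p : Fin 4 × Fin 2 → ℂ} {i : Fin 4} {g : K} {R : Subalgebra ℂ K}
    (h : Exc p i g R) :
    (g = t - cst (p (i, 0)) ∧ ExcAux p i (t - cst (p (i, 0))) (y - cst (p (i, 1))) R) ∨
    (g = y - cst (p (i, 1)) ∧ ExcAux p i (y - cst (p (i, 1))) (t - cst (p (i, 0))) R) := by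
  rcases h with ⟨rfl, c, rfl⟩ | ⟨rfl, rfl⟩
  · left
    refine ⟨rfl, t_sub_ne_zero _, left_mem_loc _ _, ?_, ?_⟩
    · have := (loc (t - cst (p (i, 0)))
        ((y - cst (p (i, 1))) / (t - cst (p (i, 0))) - cst c)).add_mem
        (right_mem_loc _ _) (cst_mem _ c)
      rwa [sub_add_cancel] at this
    · intro D h1 h2
      refine tangent_loc h1 ?_
      rw [map_sub, Derivation.map_algebraMap, sub_zero]
      exact h2
  · right
    refine ⟨rfl, y_sub_ne_zero _, right_mem_loc _ _, left_mem_loc _ _, ?_⟩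
    intro D h1 h2
    exact tangent_loc h2 h1

theorem ExcAux.h_mem {p : Fin 4 × Fin 2 → ℂ} {i : Fin 4} {g h : K} {R : Subalgebra ℂ K}
    (e : ExcAux p i g h R) : h ∈ R := by
  have := R.mul_mem e.hmem e.gmem
  rwa [div_mul_cancel₀ _ e.gne] at this

theorem ExcAux.vanish {p : Fin 4 × Fin 2 → ℂ} {i : Fin 4} {g h : K} {R : Subalgebra ℂ K}
    (e : ExcAux p i g h R) {D : Derivation ℂ K K} {a1 a2 b1 b2 : K} (ha1 : a1 ∈ R) (ha2 : a2 ∈ R)
    (hb1 : b1 ∈ R) (hb2 : b2 ∈ R) (hg : D g = a1 * g + a2 * h) (hh : D h = b1 * g + b2 * h) :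
    D ∈ tangent R := by
  have hg0 := e.gne
  apply e.tan
  · rw [hg]
    exact R.add_mem (R.mul_mem ha1 e.gmem) (R.mul_mem ha2 e.h_mem)
  · rw [Derivation.leibniz_div, hg, hh]
    simp only [smul_eq_mul]
    have : (g⁻¹ ^ 2 * (g * (b1 * g + b2 * h) - h * (a1 * g + a2 * h)) : K) =
        b1 + b2 * (h / g) - a1 * (h / g) - a2 * (h / g) ^ 2 := by
      field_simp
      ring
    rw [this]
    exact R.sub_mem (R.sub_mem (R.add_mem hb1 (R.mul_mem hb2 e.hmem)) (R.mul_mem ha1 e.hmem))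
      (R.mul_mem ha2 (R.pow_mem e.hmem 2))

theorem ExcAux.radial {p : Fin 4 × Fin 2 → ℂ} {i : Fin 4} {g h : K} {R : Subalgebra ℂ K}
    (e : ExcAux p i g h R) {D : Derivation ℂ K K} {c a1 a2 a3 b1 b2 b3 : K} (hc : c ∈ R)
    (ha1 : a1 ∈ R) (ha2 : a2 ∈ R) (ha3 : a3 ∈ R)
    (hb1 : b1 ∈ R) (hb2 : b2 ∈ R) (hb3 : b3 ∈ R)
    (hg : D g = c * g + (a1 * g ^ 2 + a2 * g * h + a3 * h ^ 2))
    (hh : D h = c * h + (b1 * g ^ 2 + b2 * g * h + b3 * h ^ 2)) :
    g⁻¹ • D ∈ tangent R := by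
  have hg0 := e.gne
  have hm := e.hmem
  apply e.tan
  · rw [Derivation.smul_apply, hg, smul_eq_mul]
    have : (g⁻¹ * (c * g + (a1 * g ^ 2 + a2 * g * h + a3 * h ^ 2)) : K) =
        c + g * (a1 + a2 * (h / g) + a3 * (h / g) ^ 2) := by
      field_simp
    rw [this]
    exact R.add_mem hc (R.mul_mem e.gmem (R.add_mem (R.add_mem ha1 (R.mul_mem ha2 hm))
      (R.mul_mem ha3 (R.pow_mem hm 2))))
  · rw [Derivation.smul_apply, Derivation.leibniz_div, hg, hh]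
    simp only [smul_eq_mul]
    have : (g⁻¹ * (g⁻¹ ^ 2 * (g * (c * h + (b1 * g ^ 2 + b2 * g * h + b3 * h ^ 2)) -
        h * (c * g + (a1 * g ^ 2 + a2 * g * h + a3 * h ^ 2)))) : K) =
        (b1 + b2 * (h / g) + b3 * (h / g) ^ 2) -
          (h / g) * (a1 + a2 * (h / g) + a3 * (h / g) ^ 2) := by
      field_simp
      ring
    rw [this]
    exact R.sub_mem (R.add_mem (R.add_mem hb1 (R.mul_mem hb2 hm))
      (R.mul_mem hb3 (R.pow_mem hm 2))) (R.mul_mem hm (R.add_mem (R.add_mem ha1 (R.mul_mem ha2 hm))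
      (R.mul_mem ha3 (R.pow_mem hm 2))))

theorem Exc.ne_zero {p : Fin 4 × Fin 2 → ℂ} {i : Fin 4} {g : K} {R : Subalgebra ℂ K}
    (h : Exc p i g R) : g ≠ 0 := by
  rcases h.aux with ⟨rfl, e⟩ | ⟨rfl, e⟩
  · exact e.gne
  · exact e.gne

theorem Exc.t_mem {p : Fin 4 × Fin 2 → ℂ} {i : Fin 4} {g : K} {R : Subalgebra ℂ K}
    (h : Exc p i g R) : t ∈ R := by
  have : t - cst (p (i, 0)) ∈ R := by
    rcases h.aux with ⟨rfl, e⟩ | ⟨rfl, e⟩
    · exact e.gmem
    · exact e.h_mem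
  have := R.add_mem this (cst_mem R (p (i, 0)))
  rwa [sub_add_cancel] at this

theorem Exc.y_mem {p : Fin 4 × Fin 2 → ℂ} {i : Fin 4} {g : K} {R : Subalgebra ℂ K}
    (h : Exc p i g R) : y ∈ R := by
  have : y - cst (p (i, 1)) ∈ R := by
    rcases h.aux with ⟨rfl, e⟩ | ⟨rfl, e⟩
    · exact e.h_mem
    · exact e.gmem
  have := R.add_mem this (cst_mem R (p (i, 1)))
  rwa [sub_add_cancel] at this

theorem der_sub_cst (D : Derivation ℂ K K) (f : K) (a : ℂ) : D (f - cst a) = D f := by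
  rw [map_sub, Derivation.map_algebraMap, sub_zero]

/-- vector fields vanishing at `p i` are regular on the blow-up -/
theorem Exc.tangent_of_vanish {p : Fin 4 × Fin 2 → ℂ} {i : Fin 4} {g : K} {R : Subalgebra ℂ K}
    (h : Exc p i g R) {D : Derivation ℂ K K} {a1 a2 b1 b2 : K} (ha1 : a1 ∈ R) (ha2 : a2 ∈ R)
    (hb1 : b1 ∈ R) (hb2 : b2 ∈ R)
    (hDt : D t = a1 * (t - cst (p (i, 0))) + a2 * (y - cst (p (i, 1))))
    (hDy : D y = b1 * (t - cst (p (i, 0))) + b2 * (y - cst (p (i, 1)))) : D ∈ tangent R := by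
  rcases h.aux with ⟨rfl, e⟩ | ⟨rfl, e⟩
  · exact e.vanish ha1 ha2 hb1 hb2 (by rw [der_sub_cst, hDt]) (by rw [der_sub_cst, hDy])
  · exact e.vanish hb2 hb1 ha2 ha1 (by rw [der_sub_cst, hDy]; ring)
      (by rw [der_sub_cst, hDt]; ring)

/-- regular vector fields have at most a simple pole along the exceptional curve -/
theorem Exc.tangent_of_regular {p : Fin 4 × Fin 2 → ℂ} {i : Fin 4} {g : K} {R : Subalgebra ℂ K}
    (h : Exc p i g R) {D : Derivation ℂ K K} (hDt : D t ∈ R) (hDy : D y ∈ R) :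
    g • D ∈ tangent R := by
  rcases h.aux with ⟨rfl, e⟩ | ⟨rfl, e⟩
  · exact e.vanish (a1 := D t) (a2 := 0) (b1 := D y) (b2 := 0) hDt R.zero_mem hDy R.zero_mem
      (by rw [Derivation.smul_apply, der_sub_cst, smul_eq_mul]; ring)
      (by rw [Derivation.smul_apply, der_sub_cst, smul_eq_mul]; ring)
  · exact e.vanish (a1 := D y) (a2 := 0) (b1 := D t) (b2 := 0) hDy R.zero_mem hDt R.zero_mem
      (by rw [Derivation.smul_apply, der_sub_cst, smul_eq_mul]; ring)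
      (by rw [Derivation.smul_apply, der_sub_cst, smul_eq_mul]; ring)

/-- radial vector fields vanish along the exceptional curve -/
theorem Exc.tangent_of_radial {p : Fin 4 × Fin 2 → ℂ} {i : Fin 4} {g : K} {R : Subalgebra ℂ K}
    (h : Exc p i g R) {D : Derivation ℂ K K} {c a1 a2 a3 b1 b2 b3 : K} (hc : c ∈ R)
    (ha1 : a1 ∈ R) (ha2 : a2 ∈ R) (ha3 : a3 ∈ R)
    (hb1 : b1 ∈ R) (hb2 : b2 ∈ R) (hb3 : b3 ∈ R)
    (hDt : D t = c * (t - cst (p (i, 0))) + (a1 * (t - cst (p (i, 0))) ^ 2 +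
      a2 * (t - cst (p (i, 0))) * (y - cst (p (i, 1))) + a3 * (y - cst (p (i, 1))) ^ 2))
    (hDy : D y = c * (y - cst (p (i, 1))) + (b1 * (t - cst (p (i, 0))) ^ 2 +
      b2 * (t - cst (p (i, 0))) * (y - cst (p (i, 1))) + b3 * (y - cst (p (i, 1))) ^ 2)) :
    g⁻¹ • D ∈ tangent R := by
  rcases h.aux with ⟨rfl, e⟩ | ⟨rfl, e⟩
  · exact e.radial hc ha1 ha2 ha3 hb1 hb2 hb3 (by rw [der_sub_cst, hDt])
      (by rw [der_sub_cst, hDy])
  · exact e.radial hc hb3 hb2 hb1 ha3 ha2 ha1 (by rw [der_sub_cst, hDy]; ring)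
      (by rw [der_sub_cst, hDt]; ring)

end

end BlowHirz
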